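import Pool.Agent.H742.GA.Stm

/-! # The Hawaiian earring group is a Borel subset of the product -/

set_option autoImplicit false

open Filter

noncomputable section

namespace Pool.Agent.H742.GA

namespace BOREL

theorem cut_cut {i j : ℕ} (h : i ≤ j) (w : Wd) : cut i (cut j w) = cut i w := by
  simp only [cut, List.filter_filter]
  congr 1
  funext a
  by_cases h1 : a.1 < i
  · simp [h1, lt_of_lt_of_le h1 h]
  · simp [h1]

theorem mem_iff (hR : S_RED) (u : ℕ → FreeGroup ℕ) :
    u ∈ HEG ↔ ∀ j, ∃ w : Wd, u j = FreeGroup.mk w ∧ ∀ᶠ k in atTop, cut j (u k).toWord = w := by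
  constructor
  · intro hu j
    obtain ⟨h1, h2, h3⟩ := hR u hu
    exact ⟨red u j, by rw [← congrFun h2 j]; rfl, h3 j⟩
  · intro h
    choose U h1 h2 using h
    refine ⟨U, ?_, ?_⟩
    · intro j k hjk
      obtain ⟨m, e1, e2⟩ := ((h2 j).and (h2 k)).exists
      rw [← e2, cut_cut hjk, e1]
    · funext j
      exact (h1 j).symm

theorem meas_word (j k : ℕ) (w : Wd) :
    MeasurableSet {u : ℕ → FreeGroup ℕ | cut j (u k).toWord = w} := by
  have : {u : ℕ → FreeGroup ℕ | cut j (u k).toWord = w}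
      = (fun u : ℕ → FreeGroup ℕ => u k) ⁻¹' {g | cut j g.toWord = w} := rfl
  rw [this]
  exact measurable_pi_apply k (by trivial)

end BOREL

theorem t_BOREL (hR : S_RED) : MeasurableSet (HEG : Set (ℕ → FreeGroup ℕ)) := by
  have e : (HEG : Set (ℕ → FreeGroup ℕ)) = ⋂ j : ℕ, ⋃ w : Wd,
      ({u : ℕ → FreeGroup ℕ | u j = FreeGroup.mk w} ∩
        {u : ℕ → FreeGroup ℕ | ∀ᶠ k in atTop, cut j (u k).toWord = w}) := by
    ext u
    simp only [Set.mem_iInter, Set.mem_iUnion, Set.mem_inter_iff, Set.mem_setOf_eq]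
    exact BOREL.mem_iff hR u
  rw [e]
  refine MeasurableSet.iInter (fun j => MeasurableSet.iUnion (fun w => MeasurableSet.inter ?_ ?_))
  · have : {u : ℕ → FreeGroup ℕ | u j = FreeGroup.mk w}
        = (fun u : ℕ → FreeGroup ℕ => u j) ⁻¹' {FreeGroup.mk w} := rfl
    rw [this]
    exact measurable_pi_apply j (by trivial)
  · have : {u : ℕ → FreeGroup ℕ | ∀ᶠ k in atTop, cut j (u k).toWord = w}
        = ⋃ N : ℕ, ⋂ k : ℕ, ⋂ (_ : N ≤ k), {u : ℕ → FreeGroup ℕ | cut j (u k).toWord = w} := by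
      ext u
      simp only [Set.mem_iInter, Set.mem_iUnion, Set.mem_setOf_eq, eventually_atTop]
    rw [this]
    exact MeasurableSet.iUnion (fun N => MeasurableSet.iInter (fun k =>
      MeasurableSet.iInter (fun _ => BOREL.meas_word j k w)))

end Pool.Agent.H742.GA
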