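import Pool.Agent.H742.GA.Stm

/-!
# Cancellation of reduced infinite words
-/

set_option autoImplicit false

open Filter

noncomputable section

namespace Pool.Agent.H742.GA

namespace CANC

theorem isRed_append {x y : Wd} {l m : ℕ × Bool} (hx : FreeGroup.IsReduced (x ++ [l]))
    (hy : FreeGroup.IsReduced (m :: y)) (h : l.1 = m.1 → l.2 = m.2) :
    FreeGroup.IsReduced ((x ++ [l]) ++ (m :: y)) := by
  unfold FreeGroup.IsReduced at *
  rw [List.isChain_append]
  refine ⟨hx, hy, ?_⟩
  intro a ha b hb
  simp at ha hb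
  subst ha
  subst hb
  exact h

/-- cancellation of finite reduced words -/
theorem fin_canc (y : Wd) : ∀ x : Wd, FreeGroup.IsReduced x → FreeGroup.IsReduced y →
    ∃ a b c : Wd, x = a ++ c ∧ y = FreeGroup.invRev c ++ b ∧ FreeGroup.IsReduced (a ++ b) := by
  induction y with
  | nil =>
    intro x hx _
    exact ⟨x, [], [], by simp, by simp [FreeGroup.invRev], by simpa using hx⟩
  | cons m y ih =>
    intro x hx hy
    rcases List.eq_nil_or_concat x with rfl | ⟨x1, l, rfl⟩
    · exact ⟨[], m :: y, [], by simp, by simp [FreeGroup.invRev], by simpa using hy⟩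
    · rw [List.concat_eq_append] at hx ⊢
      by_cases h : l.1 = m.1 → l.2 = m.2
      · exact ⟨x1 ++ [l], m :: y, [], by simp, by simp [FreeGroup.invRev],
          isRed_append hx hy h⟩
      · push Not at h
        obtain ⟨h1, h2⟩ := h
        have hl : m = (l.1, !l.2) := by
          refine Prod.ext h1.symm ?_
          show m.2 = !l.2
          revert h2
          cases l.2 <;> cases m.2 <;> simp
        have hx1 : FreeGroup.IsReduced x1 :=
          List.IsChain.left_of_append hx
        have hy1 : FreeGroup.IsReduced y :=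
          List.IsChain.right_of_append (l₁ := [m]) hy
        obtain ⟨a, b, c, ha, hb, hab⟩ := ih x1 hx1 hy1
        refine ⟨a, b, c ++ [l], by rw [ha]; simp, ?_, hab⟩
        rw [hb, hl]
        simp [FreeGroup.invRev]

/-- cancellation in the free group -/
theorem fg_canc (g h : FreeGroup ℕ) : ∃ a b c : Wd, g.toWord = a ++ c ∧
    h.toWord = FreeGroup.invRev c ++ b ∧ (g * h).toWord = a ++ b := by
  obtain ⟨a, b, c, ha, hb, hab⟩ := fin_canc h.toWord g.toWord FreeGroup.isReduced_toWord
    FreeGroup.isReduced_toWord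
  refine ⟨a, b, c, ha, hb, ?_⟩
  have h1 : g * h = FreeGroup.mk (a ++ b) := by
    rw [← FreeGroup.mk_toWord (x := g), ← FreeGroup.mk_toWord (x := h), ha, hb,
      ← FreeGroup.mul_mk, ← FreeGroup.mul_mk, ← FreeGroup.mul_mk, ← FreeGroup.inv_mk]
    group
  rw [h1, FreeGroup.toWord_mk, hab.reduce_eq]

theorem cut_append (j : ℕ) (x y : Wd) : cut j (x ++ y) = cut j x ++ cut j y := by
  simp [cut]

theorem cut_invRev (j : ℕ) (x : Wd) : cut j (FreeGroup.invRev x) = FreeGroup.invRev (cut j x) := by
  simp only [cut, FreeGroup.invRev, List.filter_reverse, List.filter_map]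
  rfl

theorem cut_cut {i j : ℕ} (h : i ≤ j) (x : Wd) : cut i (cut j x) = cut i x := by
  simp only [cut, List.filter_filter]
  congr 1
  funext a
  by_cases h1 : a.1 < i
  · have h2 : a.1 < j := lt_of_lt_of_le h1 h
    simp [h1, h2]
  · simp [h1]

end CANC

open CANC in
theorem t_CANC : S_RED → S_CANC := by
  intro hR u hu v hv
  have huv : u * v ∈ HEG := HEG.mul_mem hu hv
  obtain ⟨-, -, hU⟩ := hR u hu
  obtain ⟨-, -, hV⟩ := hR v hv
  obtain ⟨-, -, hUV⟩ := hR (u * v) huv
  choose a b c ha hb hab using fun k => fg_canc (u k) (v k)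
  -- the number of cancelled letters of index `< j`
  let N : ℕ → ℕ := fun j =>
    ((red u j).length + (red v j).length - (red (u * v) j).length) / 2
  let A : ℕ → Wd := fun j => (red u j).take ((red u j).length - N j)
  let C : ℕ → Wd := fun j => (red u j).drop ((red u j).length - N j)
  let B : ℕ → Wd := fun j => (red v j).drop (N j)
  have key : ∀ j, ∀ᶠ k in atTop, cut j (a k) = A j ∧ cut j (b k) = B j ∧ cut j (c k) = C j ∧
      red u j = cut j (a k) ++ cut j (c k) ∧
      red v j = FreeGroup.invRev (cut j (c k)) ++ cut j (b k) ∧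
      red (u * v) j = cut j (a k) ++ cut j (b k) := by
    intro j
    filter_upwards [hU j, hV j, hUV j] with k h1 h2 h3
    have e1 : red u j = cut j (a k) ++ cut j (c k) := by
      rw [← h1, ha k, cut_append]
    have e2 : red v j = FreeGroup.invRev (cut j (c k)) ++ cut j (b k) := by
      rw [← h2, hb k, cut_append, cut_invRev]
    have e3 : red (u * v) j = cut j (a k) ++ cut j (b k) := by
      rw [← h3, Pi.mul_apply, hab k, cut_append]
    have eN : N j = (cut j (c k)).length := by
      show ((red u j).length + (red v j).length - (red (u * v) j).length) / 2 = _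
      rw [e1, e2, e3]
      simp only [List.length_append, FreeGroup.invRev_length]
      omega
    have eA : (red u j).length - N j = (cut j (a k)).length := by
      rw [eN, e1, List.length_append]
      omega
    refine ⟨?_, ?_, ?_, e1, e2, e3⟩
    · show _ = (red u j).take ((red u j).length - N j)
      rw [eA, e1, List.take_left]
    · show _ = (red v j).drop (N j)
      rw [eN, e2, ← FreeGroup.invRev_length (L₁ := cut j (c k)), List.drop_left]
    · show _ = (red u j).drop ((red u j).length - N j)
      rw [eA, e1, List.drop_left]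
  have hA : Coh A := by
    intro i j hij
    obtain ⟨k, hi, hj⟩ := ((key i).and (key j)).exists
    rw [← hj.1, cut_cut hij, hi.1]
  have hB : Coh B := by
    intro i j hij
    obtain ⟨k, hi, hj⟩ := ((key i).and (key j)).exists
    rw [← hj.2.1, cut_cut hij, hi.2.1]
  have hC : Coh C := by
    intro i j hij
    obtain ⟨k, hi, hj⟩ := ((key i).and (key j)).exists
    rw [← hj.2.2.1, cut_cut hij, hi.2.2.1]
  refine ⟨A, B, C, hA, hB, hC, ?_, ?_, ?_⟩
  · funext j
    obtain ⟨k, hj⟩ := (key j).exists
    show _ = A j ++ C j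
    rw [hj.2.2.2.1, hj.1, hj.2.2.1]
  · funext j
    obtain ⟨k, hj⟩ := (key j).exists
    show _ = FreeGroup.invRev (C j) ++ B j
    rw [hj.2.2.2.2.1, hj.2.1, hj.2.2.1]
  · funext j
    obtain ⟨k, hj⟩ := (key j).exists
    show _ = A j ++ B j
    rw [hj.2.2.2.2.2, hj.1, hj.2.1]

end Pool.Agent.H742.GA
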