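import Pool.Agent.H742.GA.Stm

/-!
# Task CAT: deleting runs in a concatenation (helper116, for helper742)
-/

set_option autoImplicit false

open Filter

noncomputable section

namespace Pool.Agent.H742.GA

namespace CAT

/-- the index has parity `p` -/
def par (p : ℕ) (a : ℕ × Bool) : Bool := a.1 % 2 == p

/-- the first run, if it has parity `p` -/
def fr (p : ℕ) (w : Wd) : Wd := w.takeWhile (par p)

/-- the last run, if it has parity `p` -/
def lr (p : ℕ) (w : Wd) : Wd := w.rtakeWhile (par p)

theorem lr_eq (p : ℕ) (w : Wd) : lr p w = (fr p w.reverse).reverse := rfl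

theorem filter_takeWhile (P q : ℕ × Bool → Bool) (w : Wd) :
    (w.takeWhile P).filter q <+: (w.filter q).takeWhile P := by
  induction w with
  | nil => simp
  | cons x w ih =>
    by_cases hP : P x = true
    · by_cases hq : q x = true
      · rw [List.takeWhile_cons_of_pos hP, List.filter_cons_of_pos hq, List.filter_cons_of_pos hq,
          List.takeWhile_cons_of_pos hP]
        exact (List.prefix_cons_inj x).2 ih
      · rw [List.takeWhile_cons_of_pos hP, List.filter_cons_of_neg hq, List.filter_cons_of_neg hq]
        exact ih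
    · rw [List.takeWhile_cons_of_neg hP]
      exact List.nil_prefix

theorem cut_cut {m k : ℕ} (h : m ≤ k) (w : Wd) : cut m (cut k w) = cut m w := by
  unfold cut
  rw [List.filter_filter]
  refine List.filter_congr fun a _ => ?_
  by_cases h1 : a.1 < m
  · simp [h1, lt_of_lt_of_le h1 h]
  · simp [h1]

theorem cut_reverse (m : ℕ) (w : Wd) : cut m w.reverse = (cut m w).reverse := by
  unfold cut
  rw [List.filter_reverse]

theorem cut_nil_iff {m : ℕ} {w : Wd} : cut m w = [] ↔ ∀ a ∈ w, m ≤ a.1 := by
  unfold cut
  rw [List.filter_eq_nil_iff]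
  simp

theorem cut_append (m : ℕ) (v w : Wd) : cut m (v ++ w) = cut m v ++ cut m w := by
  unfold cut
  rw [List.filter_append]

/-- monotonicity -/
theorem fr_mono {B : ℕ → Wd} (hB : Coh B) (p : ℕ) {m k k' : ℕ} (h1 : m ≤ k) (h2 : k ≤ k')
    (h : cut m (fr p (B k)) = []) : cut m (fr p (B k')) = [] := by
  rw [← cut_cut h1]
  have h3 : cut k (fr p (B k')) <+: fr p (B k) := by
    have h4 := filter_takeWhile (par p) (fun a => decide (a.1 < k)) (B k')
    have h5 := hB k k' h2
    unfold cut at h5
    rw [h5] at h4
    exact h4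
  rw [cut_nil_iff] at h ⊢
  intro a ha
  exact h a (h3.subset ha)

theorem dich {B : ℕ → Wd} (hB : Coh B) (p : ℕ) :
    (∃ m, ∀ n k, m ≤ n → m ≤ k → cut n (fr p (B k)) ≠ []) ∨
      ∀ m, ∀ᶠ k in atTop, cut m (fr p (B k)) = [] := by
  by_cases h : ∃ m, ∀ k, m ≤ k → cut m (fr p (B k)) ≠ []
  · left
    obtain ⟨m, hm⟩ := h
    refine ⟨m, fun n k hn hk h1 => hm k hk ?_⟩
    rw [cut_nil_iff] at h1 ⊢
    exact fun a ha => hn.trans (h1 a ha)
  · right
    push Not at h
    intro m
    obtain ⟨k, hk, h1⟩ := h m
    filter_upwards [eventually_ge_atTop k] with k' hk'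
    exact fr_mono hB p hk hk' h1

theorem coh_reverse {B : ℕ → Wd} (hB : Coh B) : Coh (fun k => (B k).reverse) := by
  intro j k h
  rw [cut_reverse, hB j k h]

theorem cut_lr_nil {m p : ℕ} {w : Wd} : cut m (lr p w) = [] ↔ cut m (fr p w.reverse) = [] := by
  rw [lr_eq, cut_reverse, List.reverse_eq_nil_iff]

/-! ### finite facts -/

theorem del_nil (n : ℕ) : del n [] = [] := by
  simp [del]

theorem del_append (n : ℕ) {v w : Wd}
    (h : ∀ x ∈ v.getLast?, ∀ y ∈ w.head?, x.1 % 2 ≠ y.1 % 2) :
    del n (v ++ w) = del n v ++ del n w := by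
  unfold del
  rw [List.splitBy_append, List.filter_append, List.flatten_append]
  intro x hx y hy
  have := h x hx y hy
  simpa using this

theorem del_pure (n p : ℕ) {v : Wd} (h : ∀ a ∈ v, par p a = true) :
    del n v = if cut n v = [] then v else [] := by
  by_cases hv : v = []
  · subst hv
    rw [del_nil]
    simp
  · unfold del
    rw [List.splitBy_of_isChain hv]
    · by_cases h1 : cut n v = []
      · rw [if_pos h1]
        have h2 : v.all (fun a => decide (n ≤ a.1)) = true := by
          rw [List.all_eq_true]
          intro a ha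
          exact decide_eq_true (cut_nil_iff.1 h1 a ha)
        simp [h2]
      · rw [if_neg h1]
        have h2 : ¬ v.all (fun a => decide (n ≤ a.1)) = true := by
          rw [List.all_eq_true]
          intro h3
          exact h1 (cut_nil_iff.2 fun a ha => of_decide_eq_true (h3 a ha))
        rw [List.filter_singleton]
        simp [h2]
    · refine List.Pairwise.isChain ?_
      refine List.pairwise_of_forall_mem_list ?_
      intro a ha b hb
      have h1 := h a ha
      have h2 := h b hb
      unfold par at h1 h2
      rw [beq_iff_eq] at h1 h2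
      simp [h1, h2]

theorem fr_par (p : ℕ) (w : Wd) : ∀ a ∈ fr p w, par p a = true :=
  fun _ ha => List.mem_takeWhile_imp ha

theorem lr_par (p : ℕ) (w : Wd) : ∀ a ∈ lr p w, par p a = true :=
  fun _ ha => List.mem_rtakeWhile_imp ha

/-- the first run -/
theorem del_fr (n p : ℕ) (w : Wd) :
    del n w = del n (fr p w) ++ del n (w.dropWhile (par p)) := by
  conv_lhs => rw [← List.takeWhile_append_dropWhile (p := par p) (l := w)]
  apply del_append
  intro x hx y hy
  have h1 := fr_par p w x (List.mem_of_getLast? hx)
  have h2 : ¬ par p y = true := by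
    intro h3
    have := List.head?_dropWhile_not (par p) w
    rw [hy] at this
    simp [h3] at this
  unfold par at h1 h2
  rw [beq_iff_eq] at h1 h2
  rw [h1]
  exact fun h => h2 h.symm

theorem not_par_dropWhile (p : ℕ) (w : Wd) : ∀ y ∈ (w.dropWhile (par p)).head?, ¬ par p y = true := by
  intro y hy h3
  have := List.head?_dropWhile_not (par p) w
  rw [hy] at this
  simp [h3] at this

theorem not_par_rdropWhile (p : ℕ) (w : Wd) :
    ∀ y ∈ (w.rdropWhile (par p)).getLast?, ¬ par p y = true := by
  intro y hy
  rw [List.rdropWhile, List.getLast?_reverse] at hy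
  exact not_par_dropWhile p w.reverse y hy

theorem ne_of_par {p : ℕ} {x y : ℕ × Bool} (hx : par p x = true) (hy : ¬ par p y = true) :
    x.1 % 2 ≠ y.1 % 2 := by
  unfold par at hx hy
  rw [beq_iff_eq] at hx hy
  rw [hx]
  exact fun h => hy h.symm

/-- the finite fact -/
theorem fin (n j : ℕ) (a c : Wd)
    (h1 : ∀ p, p < 2 → cut n (fr p c) = [] → cut j (fr p c) = [])
    (h2 : ∀ p, p < 2 → cut n (lr p a) = [] → cut j (lr p a) = []) :
    cut j (del n (a ++ c)) = cut j (del n a) ++ cut j (del n c) := by
  by_cases h : ∀ x ∈ a.getLast?, ∀ y ∈ c.head?, x.1 % 2 ≠ y.1 % 2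
  · rw [del_append n h, cut_append]
  · push Not at h
    obtain ⟨x, hx, y, hy, hxy⟩ := h
    obtain ⟨p, hp⟩ : ∃ p, p = x.1 % 2 := ⟨_, rfl⟩
    have hp2 : p < 2 := by rw [hp]; exact Nat.mod_lt _ (by norm_num)
    have ha : a.rdropWhile (par p) ++ lr p a = a := List.rdropWhile_append_rtakeWhile
    have hc : fr p c ++ c.dropWhile (par p) = c := List.takeWhile_append_dropWhile
    have hT : lr p a ≠ [] := by
      intro h0
      have ha0 : a ≠ [] := by
        rintro rfl
        simp at hx
      have h3 := (List.rtakeWhile_eq_nil_iff).1 h0 ha0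
      apply h3
      rw [List.getLast?_eq_some_getLast ha0] at hx
      have h4 : a.getLast ha0 = x := by simpa using hx
      rw [h4]
      unfold par
      rw [beq_iff_eq, hp]
    have hda : del n a = del n (a.rdropWhile (par p)) ++ del n (lr p a) := by
      conv_lhs => rw [← ha]
      apply del_append
      intro x hx y hy
      exact (ne_of_par (lr_par p a y (List.mem_of_mem_head? hy)) (not_par_rdropWhile p a x hx)).symm
    have hdc : del n c = del n (fr p c) ++ del n (c.dropWhile (par p)) := del_fr n p c
    have hTI : ∀ b ∈ lr p a ++ fr p c, par p b = true := by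
      intro b hb
      rcases List.mem_append.1 hb with hb | hb
      · exact lr_par p a b hb
      · exact fr_par p c b hb
    have hdac : del n (a ++ c) = del n (a.rdropWhile (par p)) ++
        (del n (lr p a ++ fr p c) ++ del n (c.dropWhile (par p))) := by
      have e1 : a ++ c = a.rdropWhile (par p) ++ ((lr p a ++ fr p c) ++ c.dropWhile (par p)) := by
        conv_lhs => rw [← ha, ← hc]
        simp only [List.append_assoc]
      rw [e1, del_append, del_append]
      · intro x hx y hy
        exact ne_of_par (hTI x (List.mem_of_mem_getLast? hx)) (not_par_dropWhile p c y hy)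
      · intro x hx y hy
        refine (ne_of_par (lr_par p a y ?_) (not_par_rdropWhile p a x hx)).symm
        obtain ⟨b, t, hbt⟩ := List.exists_cons_of_ne_nil hT
        rw [hbt] at hy ⊢
        simp only [List.cons_append, List.head?_cons, Option.mem_some_iff] at hy
        rw [← hy]
        exact List.mem_cons_self
    rw [hda, hdc, hdac, del_pure n p hTI, del_pure n p (lr_par p a), del_pure n p (fr_par p c)]
    simp only [cut_append, List.append_eq_nil_iff]
    have h1' := h1 p hp2
    have h2' := h2 p hp2
    have hcn : cut j ([] : Wd) = [] := rfl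
    by_cases h3 : cut n (lr p a) = []
    · by_cases h4 : cut n (fr p c) = []
      · rw [if_pos ⟨h3, h4⟩, if_pos h3, if_pos h4, cut_append]
        simp only [List.append_assoc]
      · rw [if_neg (fun h => h4 h.2), if_pos h3, if_neg h4, h2' h3, hcn]
        simp only [List.append_nil, List.nil_append]
    · by_cases h4 : cut n (fr p c) = []
      · rw [if_neg (fun h => h3 h.1), if_neg h3, if_pos h4, h1' h4, hcn]
        simp only [List.append_nil, List.nil_append]
      · rw [if_neg (fun h => h3 h.1), if_neg h3, if_neg h4, hcn]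
        simp only [List.append_nil, List.nil_append]

theorem dich' {B : ℕ → Wd} (hB : Coh B) (p : ℕ) :
    ∀ᶠ n in atTop, ∀ j, ∀ᶠ k in atTop, cut n (fr p (B k)) = [] → cut j (fr p (B k)) = [] := by
  rcases dich hB p with ⟨m, hm⟩ | h
  · filter_upwards [eventually_ge_atTop m] with n hn j
    filter_upwards [eventually_ge_atTop m] with k hk h
    exact absurd h (hm n k hn hk)
  · refine Eventually.of_forall fun n j => ?_
    filter_upwards [h j] with k hk _
    exact hk

end CAT

open CAT in
/-- Task CAT. -/
theorem t_CAT : S_DEL → S_CAT := by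
  intro hdel A C hA hC
  filter_upwards [dich' (coh_reverse hA) 0, dich' (coh_reverse hA) 1, dich' hC 0, dich' hC 1]
    with n a0 a1 c0 c1
  funext j
  have e := ((((((hdel n _ (coh_cat hA hC)).2 j).and ((hdel n _ hA).2 j)).and
    ((hdel n _ hC).2 j)).and (a0 j)).and (a1 j)).and ((c0 j).and (c1 j))
  obtain ⟨k, ⟨⟨⟨⟨h1, h2⟩, h3⟩, h4⟩, h5⟩, h6, h7⟩ := e.exists
  change _ = DelI n A j ++ DelI n C j
  rw [← h1, ← h2, ← h3]
  apply fin
  · intro p hp
    interval_cases p
    · exact h6
    · exact h7
  · intro p hp
    interval_cases p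
    · rw [cut_lr_nil, cut_lr_nil]
      exact h4
    · rw [cut_lr_nil, cut_lr_nil]
      exact h5

end Pool.Agent.H742.GA
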