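import Pool.Agent.H742.GA.Stm

/-!
# Project GA, DEL: deleting runs, limit words (helper264 for helper742)
-/

set_option autoImplicit false

open Filter

noncomputable section

namespace Pool.Agent.H742.GA

namespace DEL

/-- the maximal initial run of parity `p` has no letter of index `< n` -/
def G (n p : ℕ) : Wd → Bool
  | [] => true
  | b :: l => if b.1 % 2 = p then (decide (n ≤ b.1) && G n p l) else true

/-- the letter `a` with left context `c` (reversed) and right context `d` is kept -/
def cond (n : ℕ) (a : ℕ × Bool) (c d : Wd) : Bool :=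
  decide (n ≤ a.1) && (G n (a.1 % 2) c && G n (a.1 % 2) d)

/-- the letters of `w` which are kept in the word `c.reverse ++ w ++ d` -/
def E (n : ℕ) : Wd → Wd → Wd → Wd
  | _, [], _ => []
  | c, a :: w, d => (if cond n a c (w ++ d) then [a] else []) ++ E n (a :: c) w d

theorem cond_comm (n : ℕ) (a : ℕ × Bool) (c d : Wd) : cond n a c d = cond n a d c := by
  unfold cond
  rw [Bool.and_comm (G n (a.1 % 2) c)]

theorem E_append (n : ℕ) (c w₁ w₂ d : Wd) :
    E n c (w₁ ++ w₂) d = E n c w₁ (w₂ ++ d) ++ E n (w₁.reverse ++ c) w₂ d := by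
  induction w₁ generalizing c with
  | nil => simp [E]
  | cons a w₁ ih => simp [E, ih, List.append_assoc]

theorem E_reverse (n : ℕ) (c w d : Wd) : E n c w.reverse d = (E n d w c).reverse := by
  induction w generalizing c d with
  | nil => rfl
  | cons a w ih =>
    rw [List.reverse_cons, E_append, ih, List.reverse_reverse]
    have h1 : E n (w ++ c) [a] d = (if cond n a (w ++ c) d then [a] else []) := by
      simp [E]
    have h2 : E n d (a :: w) c = (if cond n a d (w ++ c) then [a] else []) ++ E n (a :: d) w c := rfl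
    rw [h1, h2, cond_comm, List.reverse_append]
    split_ifs <;> simp

/-- flip the sign -/
def fl (x : ℕ × Bool) : ℕ × Bool := (x.1, !x.2)

theorem G_map (n p : ℕ) (l : Wd) : G n p (l.map fl) = G n p l := by
  induction l with
  | nil => rfl
  | cons b l ih => simp only [List.map_cons, G, ih, fl]

theorem E_map (n : ℕ) (c w d : Wd) : E n (c.map fl) (w.map fl) (d.map fl) = (E n c w d).map fl := by
  induction w generalizing c with
  | nil => rfl
  | cons a w ih =>
    have h0 : cond n (fl a) (c.map fl) (w.map fl ++ d.map fl) = cond n a c (w ++ d) := by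
      unfold cond
      rw [← List.map_append, G_map, G_map]
      rfl
    have h1 : E n (c.map fl) ((a :: w).map fl) (d.map fl) =
      (if cond n (fl a) (c.map fl) (w.map fl ++ d.map fl) then [fl a] else []) ++
        E n ((a :: c).map fl) (w.map fl) (d.map fl) := rfl
    have h2 : E n c (a :: w) d = (if cond n a c (w ++ d) then [a] else []) ++ E n (a :: c) w d := rfl
    rw [h1, h2, h0, ih, List.map_append]
    split_ifs <;> simp

theorem cut_nil (k : ℕ) : cut k [] = [] := rfl

theorem cut_cons_lt {k : ℕ} {b : ℕ × Bool} (l : Wd) (h : b.1 < k) : cut k (b :: l) = b :: cut k l := by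
  unfold cut
  rw [List.filter_cons_of_pos (by simpa using h)]

theorem cut_cons_ge {k : ℕ} {b : ℕ × Bool} (l : Wd) (h : ¬ b.1 < k) : cut k (b :: l) = cut k l := by
  unfold cut
  rw [List.filter_cons_of_neg (by simpa using h)]

theorem cut_append (k : ℕ) (l m : Wd) : cut k (l ++ m) = cut k l ++ cut k m := by
  unfold cut
  exact List.filter_append _ _

theorem G_cut {n k p : ℕ} (h : n ≤ k) (l : Wd) (hl : G n p (cut k l) = true) : G n p l = true := by
  induction l with
  | nil => rfl
  | cons b l ih =>
    by_cases hb : b.1 < k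
    · rw [cut_cons_lt l hb] at hl
      simp only [G] at hl ⊢
      split_ifs at hl ⊢ with hp
      · rw [Bool.and_eq_true] at hl ⊢
        exact ⟨hl.1, ih hl.2⟩
      · rfl
    · rw [cut_cons_ge l hb] at hl
      simp only [G]
      split_ifs with hp
      · rw [Bool.and_eq_true]
        exact ⟨by rw [decide_eq_true_iff]; omega, ih hl⟩
      · rfl

theorem cond_cut {n k : ℕ} (h : n ≤ k) (a : ℕ × Bool) (c d : Wd)
    (hl : cond n a (cut k c) (cut k d) = true) : cond n a c d = true := by
  unfold cond at hl ⊢
  rw [Bool.and_eq_true, Bool.and_eq_true] at hl ⊢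
  exact ⟨hl.1, G_cut h c hl.2.1, G_cut h d hl.2.2⟩

theorem E_cut {n k : ℕ} (h : n ≤ k) (c w d : Wd) :
    (E n (cut k c) (cut k w) (cut k d)).Sublist (cut k (E n c w d)) := by
  induction w generalizing c with
  | nil => exact List.Sublist.refl _
  | cons a w ih =>
    have h2 : E n c (a :: w) d = (if cond n a c (w ++ d) then [a] else []) ++ E n (a :: c) w d := rfl
    by_cases ha : a.1 < k
    · rw [cut_cons_lt w ha]
      have h1 : E n (cut k c) (a :: cut k w) (cut k d) =
        (if cond n a (cut k c) (cut k w ++ cut k d) then [a] else []) ++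
          E n (a :: cut k c) (cut k w) (cut k d) := rfl
      have h3 := ih (a :: c)
      rw [cut_cons_lt c ha] at h3
      rw [h1, h2, cut_append k (if cond n a c (w ++ d) = true then [a] else []), ← cut_append k w d]
      refine List.Sublist.append ?_ h3
      by_cases hc : cond n a (cut k c) (cut k (w ++ d)) = true
      · rw [if_pos hc, if_pos (cond_cut h a c (w ++ d) hc), cut_cons_lt [] ha, cut_nil]
      · rw [if_neg hc]
        exact List.nil_sublist _
    · rw [cut_cons_ge w ha, h2, cut_append]
      have h3 := ih (a :: c)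
      rw [cut_cons_ge c ha] at h3
      exact h3.trans (List.sublist_append_right _ _)

theorem E_sub (n : ℕ) (c w d : Wd) : (E n c w d).Sublist w := by
  induction w generalizing c with
  | nil => exact List.Sublist.refl _
  | cons a w ih =>
    have h2 : E n c (a :: w) d = (if cond n a c (w ++ d) then [a] else []) ++ E n (a :: c) w d := rfl
    rw [h2]
    have h3 : ((if cond n a c (w ++ d) then [a] else []) ++ E n (a :: c) w d).Sublist ([a] ++ w) := by
      refine List.Sublist.append ?_ (ih _)
      split_ifs
      · exact List.Sublist.refl _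
      · exact List.nil_sublist _
    exact h3

/-- all letters have index at least `n` -/
def big (n : ℕ) (m : Wd) : Bool := m.all (fun a => decide (n ≤ a.1))

theorem big_cons (n : ℕ) (a : ℕ × Bool) (m : Wd) : big n (a :: m) = (decide (n ≤ a.1) && big n m) := rfl

theorem G_start (n p : ℕ) (l : Wd) (h : ∀ x ∈ l.head?, x.1 % 2 ≠ p) : G n p l = true := by
  cases l with
  | nil => rfl
  | cons b l =>
    have hb : b.1 % 2 ≠ p := h b rfl
    simp only [G, if_neg hb]

theorem G_pure (n p : ℕ) (m d : Wd) (hm : ∀ a ∈ m, a.1 % 2 = p) (hd : G n p d = true) :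
    G n p (m ++ d) = big n m := by
  induction m with
  | nil => exact hd
  | cons a m ih =>
    rw [big_cons, ← ih (fun b hb => hm b (List.mem_cons_of_mem _ hb))]
    have ha : a.1 % 2 = p := hm a List.mem_cons_self
    have h1 : G n p (a :: m ++ d) = if a.1 % 2 = p then (decide (n ≤ a.1) && G n p (m ++ d)) else true := rfl
    rw [h1, if_pos ha]

theorem E_block (n p : ℕ) (c m d : Wd) (hm : ∀ a ∈ m, a.1 % 2 = p) (hd : G n p d = true) :
    E n c m d = if (G n p c && big n m) then m else [] := by
  induction m generalizing c with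
  | nil => simp [E]
  | cons a m ih =>
    have ha : a.1 % 2 = p := hm a List.mem_cons_self
    have hm' : ∀ b ∈ m, b.1 % 2 = p := fun b hb => hm b (List.mem_cons_of_mem _ hb)
    have h2 : E n c (a :: m) d = (if cond n a c (m ++ d) then [a] else []) ++ E n (a :: c) m d := rfl
    have h3 : cond n a c (m ++ d) = (decide (n ≤ a.1) && (G n p c && big n m)) := by
      unfold cond
      rw [ha, G_pure n p m d hm' hd]
    have h4 : G n p (a :: c) = (decide (n ≤ a.1) && G n p c) := by
      simp only [G, if_pos ha]
    rw [h2, ih _ hm', h3, h4, big_cons]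
    cases decide (n ≤ a.1) <;> cases G n p c <;> cases big n m <;> simp

/-- the parities in a run agree -/
theorem run_pure (m : Wd) (hm : m.IsChain (fun a b => (a.1 % 2 == b.1 % 2) = true)) :
    ∃ p, ∀ a ∈ m, a.1 % 2 = p := by
  induction m with
  | nil => exact ⟨0, fun a ha => absurd ha List.not_mem_nil⟩
  | cons a m ih =>
    rw [List.isChain_cons] at hm
    obtain ⟨p, hp⟩ := ih hm.2
    cases m with
    | nil =>
      refine ⟨a.1 % 2, fun b hb => ?_⟩
      rw [List.mem_singleton] at hb
      rw [hb]
    | cons b m =>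
      refine ⟨p, fun x hx => ?_⟩
      rcases List.mem_cons.1 hx with rfl | hx
      · have h1 := hm.1 b rfl
        have h2 : x.1 % 2 = b.1 % 2 := by simpa using h1
        rw [h2]
        exact hp b List.mem_cons_self
      · exact hp x hx

theorem E_flatten (n : ℕ) (L : List Wd) : ∀ c : Wd, [] ∉ L →
    (∀ m ∈ L, m.IsChain (fun a b => (a.1 % 2 == b.1 % 2) = true)) →
    (L.IsChain fun a b => ∃ ha hb, ((a.getLast ha).1 % 2 == (b.head hb).1 % 2) = false) →
    (∀ x ∈ c.head?, ∀ y ∈ L.flatten.head?, x.1 % 2 ≠ y.1 % 2) →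
    E n c L.flatten [] = (L.filter (fun r => big n r)).flatten := by
  induction L with
  | nil => intro c _ _ _ _; rfl
  | cons m L ih =>
    intro c h1 h2 h3 h4
    have hm : m ≠ [] := fun h => h1 (by rw [h]; exact List.mem_cons_self)
    have h1' : [] ∉ L := fun h => h1 (List.mem_cons_of_mem _ h)
    obtain ⟨p, hp⟩ := run_pure m (h2 m List.mem_cons_self)
    rw [List.isChain_cons] at h3
    -- the first letter of the rest
    have hrest : ∀ y ∈ L.flatten.head?, y.1 % 2 ≠ p := by
      intro y hy
      cases L with
      | nil => exact absurd hy (by simp)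
      | cons m' L' =>
        have hm' : m' ≠ [] := fun h => h1' (by rw [h]; exact List.mem_cons_self)
        obtain ⟨ha, hb, hr⟩ := h3.1 m' rfl
        have hy' : y = m'.head hb := by
          rw [List.flatten_cons, List.head?_append_of_ne_nil _ hm', List.head?_eq_some_head hm'] at hy
          exact (Option.some.inj hy).symm
        rw [hy']
        have h5 := hp _ (List.getLast_mem ha)
        rw [← h5]
        intro h6
        rw [h6] at hr
        simp at hr
    have hc : G n p c = true := by
      refine G_start n p c fun x hx => ?_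
      have h5 := h4 x hx (m.head hm) (by
        rw [List.flatten_cons, List.head?_append_of_ne_nil _ hm, List.head?_eq_some_head hm]
        rfl)
      rw [hp _ (List.head_mem hm)] at h5
      exact h5
    rw [List.flatten_cons, E_append, List.append_nil, E_block n p c m _ hp (G_start n p _ hrest), hc,
      Bool.true_and]
    have hIH := ih (m.reverse ++ c) h1' (fun m' hm' => h2 m' (List.mem_cons_of_mem _ hm')) h3.2 (by
      intro x hx y hy
      have hm2 : m.reverse ≠ [] := by simpa using hm
      rw [List.head?_append_of_ne_nil _ hm2, List.head?_eq_some_head hm2] at hx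
      have hx' : x = m.reverse.head hm2 := (Option.some.inj hx).symm
      have hx2 : x ∈ m := by
        rw [hx', ← List.mem_reverse]
        exact List.head_mem hm2
      rw [hp x hx2]
      exact (hrest y hy).symm)
    rw [hIH]
    by_cases hb : big n m = true
    · rw [if_pos hb, List.filter_cons_of_pos hb, List.flatten_cons]
    · rw [if_neg hb, List.filter_cons_of_neg hb, List.nil_append]

theorem del_eq (n : ℕ) (w : Wd) : del n w = E n [] w [] := by
  have h := E_flatten n (w.splitBy (fun a b => a.1 % 2 == b.1 % 2)) [] (List.nil_notMem_splitBy _ _)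
    (fun m hm => List.isChain_of_mem_splitBy hm)
    (List.isChain_getLast_head_splitBy (fun a b : ℕ × Bool => a.1 % 2 == b.1 % 2) w)
    (fun x hx => absurd hx (by simp))
  rw [List.flatten_splitBy] at h
  rw [h]
  rfl

theorem del_sub (n : ℕ) (w : Wd) : (del n w).Sublist w := by
  rw [del_eq]
  exact E_sub n [] w []

theorem del_cut {n k : ℕ} (h : n ≤ k) (w : Wd) : (del n (cut k w)).Sublist (cut k (del n w)) := by
  rw [del_eq, del_eq]
  exact E_cut h [] w []

theorem del_invRev (n : ℕ) (w : Wd) : del n (FreeGroup.invRev w) = FreeGroup.invRev (del n w) := by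
  have h1 : ∀ v : Wd, FreeGroup.invRev v = (v.map fl).reverse := fun v => rfl
  rw [h1, h1, del_eq, del_eq, E_reverse]
  have h2 := E_map n [] w []
  rw [List.map_nil] at h2
  rw [h2]

theorem del_pure {n p : ℕ} (w : Wd) (hw : ∀ a ∈ w, a.1 % 2 = p) (h : ∃ a ∈ w, a.1 < n) : del n w = [] := by
  rw [del_eq, E_block n p [] w [] hw rfl]
  have h1 : big n w = false := by
    obtain ⟨a, ha, hn⟩ := h
    unfold big
    rw [List.all_eq_false]
    exact ⟨a, ha, by simpa using hn⟩
  rw [h1]
  simp

theorem del_nil (n : ℕ) : del n [] = [] := rfl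

/-- the eventual value of an eventually constant sequence -/
theorem ev_eq {s : ℕ → Wd} {w : Wd} (h : ∀ᶠ k in atTop, s k = w) : ev s = w := by
  have hex : ∃ w, ∀ᶠ k in atTop, s k = w := ⟨w, h⟩
  unfold ev
  rw [dif_pos hex]
  obtain ⟨k, hk⟩ := ((Classical.choose_spec hex).and h).exists
  rw [← hk.1, hk.2]

theorem cut_cut {i j : ℕ} (h : i ≤ j) (w : Wd) : cut i (cut j w) = cut i w := by
  unfold cut
  rw [List.filter_filter]
  refine List.filter_congr fun a _ => ?_
  by_cases ha : a.1 < i
  · have : a.1 < j := by omega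
    simp [ha, this]
  · simp [ha]

theorem cut_sub {k : ℕ} {v w : Wd} (h : v.Sublist w) : (cut k v).Sublist (cut k w) := h.filter _

theorem cut_invRev (k : ℕ) (w : Wd) : cut k (FreeGroup.invRev w) = FreeGroup.invRev (cut k w) := by
  simp only [cut, FreeGroup.invRev, List.filter_reverse, List.filter_map]
  rfl

/-- an increasing chain of words of bounded length is eventually constant -/
theorem chain_const (s : ℕ → Wd) (K B : ℕ) (h : ∀ k k', K ≤ k → k ≤ k' → (s k).Sublist (s k'))
    (hB : ∀ k, K ≤ k → (s k).length ≤ B) : ∃ w, ∀ᶠ k in atTop, s k = w := by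
  -- a maximal length
  obtain ⟨k₀, hk₀, hmax⟩ : ∃ k₀, K ≤ k₀ ∧ ∀ k, K ≤ k → (s k).length ≤ (s k₀).length := by
    have hfin : {x : ℕ | ∃ k, K ≤ k ∧ (s k).length = x}.Finite :=
      (Set.finite_Iic B).subset (by
        rintro x ⟨k, hk, rfl⟩
        exact hB k hk)
    obtain ⟨x, ⟨k₀, hk₀, hx⟩, hmax⟩ := hfin.exists_maximalFor id _ ⟨_, K, le_rfl, rfl⟩
    refine ⟨k₀, hk₀, fun k hk => ?_⟩
    rw [hx]
    rcases le_total (s k).length x with h1 | h1
    · exact h1
    · exact hmax ⟨k, hk, rfl⟩ h1
  refine ⟨s k₀, ?_⟩
  filter_upwards [eventually_ge_atTop k₀] with k hk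
  have h1 := h k₀ k hk₀ hk
  have h2 := hmax k (hk₀.trans hk)
  exact (h1.eq_of_length_le h2).symm

theorem del_lim (n : ℕ) (U : ℕ → Wd) (hU : Coh U) (j : ℕ) :
    ∀ᶠ k in atTop, cut j (del n (U k)) = DelI n U j := by
  obtain ⟨w, hw⟩ := chain_const (fun k => cut j (del n (U k))) (max n j) (U j).length (by
    intro k k' hk hkk'
    have h1 : n ≤ k := (le_max_left _ _).trans hk
    have h2 : j ≤ k := (le_max_right _ _).trans hk
    have h3 : (del n (U k)).Sublist (cut k (del n (U k'))) := by
      rw [← hU k k' hkk']
      exact del_cut h1 _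
    have h4 := cut_sub (k := j) h3
    rw [cut_cut h2] at h4
    exact h4) (by
    intro k hk
    have h2 : j ≤ k := (le_max_right _ _).trans hk
    have h3 := (cut_sub (k := j) (del_sub n (U k))).length_le
    rw [hU j k h2] at h3
    exact h3)
  have h1 : DelI n U j = w := ev_eq hw
  rw [h1]
  exact hw

end DEL

open DEL

theorem t_DEL : S_DEL := by
  intro n U hU
  refine ⟨?_, del_lim n U hU⟩
  intro i j hij
  obtain ⟨k, hk⟩ := ((del_lim n U hU i).and (del_lim n U hU j)).exists
  rw [← hk.1, ← hk.2, cut_cut hij]

theorem t_INV : S_DEL → S_INV := by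
  intro hDEL n U hU
  funext j
  refine ev_eq ?_
  filter_upwards [(hDEL n U hU).2 j] with k hk
  show cut j (del n (FreeGroup.invRev (U k))) = FreeGroup.invRev (DelI n U j)
  rw [del_invRev, cut_invRev, hk]

theorem t_PUREDEL : S_PUREDEL := by
  intro b V hV hP
  by_cases h : ∃ k, V k ≠ []
  · obtain ⟨k, hk⟩ := h
    obtain ⟨a, ha⟩ := List.exists_mem_of_ne_nil _ hk
    filter_upwards [eventually_gt_atTop a.1] with n hn
    funext j
    refine ev_eq ?_
    filter_upwards [eventually_ge_atTop k] with k' hk'
    have ha' : a ∈ V k' := by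
      rw [← hV k k' hk'] at ha
      exact List.mem_of_mem_filter ha
    rw [del_pure (V k') (hP k') ⟨a, ha', hn⟩]
    rfl
  · push Not at h
    refine Eventually.of_forall fun n => ?_
    funext j
    refine ev_eq ?_
    refine Eventually.of_forall fun k => ?_
    rw [h k]
    rfl

end Pool.Agent.H742.GA
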