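import Pool.Agent.H742.GA.Stm

/-! # asymptotic multiplicativity and the main equivalence for the Griffiths side -/

set_option autoImplicit false

open Filter

noncomputable section

namespace Pool.Agent.H742.GA

theorem t_AMUL (hD : S_DEL) (hC : S_CAT) (hI : S_INV) (hN : S_CANC) : S_AMUL := by
  intro u hu v hv
  obtain ⟨A, B, C, hA, hB, hCc, e1, e2, e3⟩ := hN u hu v hv
  have c1 := hC A C hA hCc
  have c2 := hC (inv C) B (coh_inv hCc) hB
  have c3 := hC A B hA hB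
  filter_upwards [c1, c2, c3] with n h1 h2 h3
  unfold dd
  rw [e1, e2, e3, h1, h2, h3, Z_cat, Z_cat, Z_cat, hI n C hCc, Z_inv]
  group

namespace GSMAIN

/-- the elements which are eventually killed -/
def K (hA : S_AMUL) (h1 : ∀ᶠ n in atTop, dd n 1 = 1) : Subgroup HEG where
  carrier := {w | ∀ᶠ n in atTop, dd n w.1 = 1}
  mul_mem' := by
    intro a b ha hb
    have h := hA a.1 a.2 b.1 b.2
    filter_upwards [ha, hb, h] with n h1 h2 h3
    show dd n (a.1 * b.1) = 1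
    rw [h3, h1, h2, one_mul]
  one_mem' := h1
  inv_mem' := by
    intro a ha
    have h := hA a.1 a.2 (a⁻¹).1 (a⁻¹).2
    filter_upwards [ha, h1, h] with n h1 h2 h3
    have e : a.1 * (a⁻¹).1 = 1 := by
      rw [← Subgroup.coe_mul]; simp
    rw [e, h2, h1, one_mul] at h3
    exact h3.symm

theorem K_normal (hA : S_AMUL) (h1 : ∀ᶠ n in atTop, dd n 1 = 1) : (K hA h1).Normal := by
  constructor
  intro a ha g
  have ha' : ∀ᶠ n in atTop, dd n a.1 = 1 := ha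
  have e1 := hA g.1 g.2 a.1 a.2
  have e2 := hA (g * a).1 (g * a).2 (g⁻¹).1 (g⁻¹).2
  have e3 := hA g.1 g.2 (g⁻¹).1 (g⁻¹).2
  show ∀ᶠ n in atTop, dd n (g * a * g⁻¹).1 = 1
  filter_upwards [ha', h1, e1, e2, e3] with n h2 h3 h4 h5 h6
  have e : g.1 * (g⁻¹).1 = 1 := by
    rw [← Subgroup.coe_mul]; simp
  rw [e, h3] at h6
  have f1 : (g * a * g⁻¹).1 = (g * a).1 * (g⁻¹).1 := rfl
  have f2 : (g * a).1 = g.1 * a.1 := rfl
  rw [f1, h5, f2, h4, h2, mul_one, ← h6]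

end GSMAIN

theorem t_GSMAIN (hR : S_RED) (hD : S_DEL) (hP : S_PUREDEL) (hQ : S_PURERED) (hK : S_KILL)
    (hA : S_AMUL) : S_GSMAIN := by
  have h1 : ∀ᶠ n in atTop, dd n 1 = 1 := by
    have hp : Pure 0 (fun _ => []) := by
      intro k a ha
      simp at ha
    have h2 := hQ 0 (fun _ => []) coh_nil hp
    have h3 := hP 0 (red (Z fun _ => [])) (hR _ ⟨_, coh_nil, rfl⟩).1 h2
    filter_upwards [h3] with n hn
    unfold dd
    rw [← Z_nil, hn]
  have hN : NGS ≤ GSMAIN.K hA h1 := by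
    haveI := GSMAIN.K_normal hA h1
    apply Subgroup.normalClosure_le_normal
    rintro v ⟨b, V, hV, hp, e⟩
    show ∀ᶠ n in atTop, dd n v.1 = 1
    have h2 := hQ b V hV hp
    have h3 := hP b (red (Z V)) (hR _ ⟨_, hV, rfl⟩).1 h2
    filter_upwards [h3] with n hn
    unfold dd
    rw [← e, hn, Z_nil]
  have key : ∀ (n : ℕ) (u w : HEG), dd n u.1 = w.1 → u⁻¹ * w ∈ NGS := by
    intro n u w h
    exact hK n (red u.1) (hR u.1 u.2).1 u w (hR u.1 u.2).2.1 h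
  intro u v
  constructor
  · intro h
    have h2 : ∀ᶠ n in atTop, dd n (u⁻¹ * v).1 = 1 := hN h
    have h3 := hA u.1 u.2 (u⁻¹ * v).1 (u⁻¹ * v).2
    have e : u.1 * (u⁻¹ * v).1 = v.1 := by
      rw [← Subgroup.coe_mul]; simp
    rw [e] at h3
    filter_upwards [h2, h3] with n h4 h5
    rw [h5, h4, mul_one]
  · intro h
    obtain ⟨n, hn⟩ := h.exists
    have m1 : dd n u.1 ∈ HEG := ⟨_, (hD n _ (hR u.1 u.2).1).1, rfl⟩
    have k1 := key n u ⟨_, m1⟩ rfl
    have k2 := key n v ⟨_, m1⟩ hn.symm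
    have e : u⁻¹ * v = (u⁻¹ * ⟨_, m1⟩) * (v⁻¹ * ⟨_, m1⟩)⁻¹ := by group
    rw [e]
    exact NGS.mul_mem k1 (NGS.inv_mem k2)

end Pool.Agent.H742.GA
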