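import Pool.Agent.H742.GA.Stm

set_option autoImplicit false

open Filter

noncomputable section

namespace Pool.Agent.H742.GA

namespace HAM

/-! ### `Q m` is a homomorphism -/

theorem Q_mul (m : ℕ) (u v : ℕ → FreeGroup ℕ) : Q m (u * v) = Q m u * Q m v := by
  funext k
  simp only [Q, Pi.mul_apply]
  split_ifs
  · rw [map_mul]
  · rw [one_mul]

theorem Q_one (m : ℕ) : Q m 1 = 1 := by
  funext k
  simp only [Q, Pi.one_apply]
  split_ifs
  · rw [map_one]
  · rfl

theorem Q_inv (m : ℕ) (u : ℕ → FreeGroup ℕ) : Q m u⁻¹ = (Q m u)⁻¹ := by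
  funext k
  simp only [Q, Pi.inv_apply]
  split_ifs
  · rw [map_inv]
  · rw [inv_one]

/-! ### words -/

/-- the word of `Q m (Z U)` -/
def qw (m : ℕ) (U : ℕ → Wd) : ℕ → Wd :=
  fun k => if m < k then (U k).map (fun a => (max a.1 m, a.2)) else []

theorem cut_map_lt {m j : ℕ} (h : m < j) (w : Wd) :
    cut j (w.map (fun a => (max a.1 m, a.2))) = (cut j w).map (fun a => (max a.1 m, a.2)) := by
  induction w with
  | nil => rfl
  | cons a w ih =>
    simp only [cut, List.map_cons, List.filter_cons, decide_eq_true_eq] at *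
    by_cases h1 : a.1 < j
    · have h2 : max a.1 m < j := max_lt h1 h
      rw [if_pos h1, if_pos h2, List.map_cons, ih]
    · have h2 : ¬ max a.1 m < j := fun h3 => h1 (lt_of_le_of_lt (le_max_left _ _) h3)
      rw [if_neg h1, if_neg h2, ih]

theorem cut_map_ge {m j : ℕ} (h : j ≤ m) (w : Wd) :
    cut j (w.map (fun a => (max a.1 m, a.2))) = [] := by
  induction w with
  | nil => rfl
  | cons a w ih =>
    simp only [cut, List.map_cons, List.filter_cons, decide_eq_true_eq] at *
    have h2 : ¬ max a.1 m < j := fun h3 => by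
      have := le_max_right a.1 m
      omega
    rw [if_neg h2, ih]

theorem coh_qw {U : ℕ → Wd} (m : ℕ) (hU : Coh U) : Coh (qw m U) := by
  intro j k hjk
  simp only [qw]
  by_cases hk : m < k
  · rw [if_pos hk]
    by_cases hj : m < j
    · rw [if_pos hj, cut_map_lt hj, hU j k hjk]
    · rw [if_neg hj, cut_map_ge (not_lt.1 hj)]
  · rw [if_neg hk, if_neg (fun h => hk (lt_of_lt_of_le h hjk))]
    rfl

theorem Z_qw (m : ℕ) (U : ℕ → Wd) : Z (qw m U) = Q m (Z U) := by
  funext k
  simp only [Z, qw, Q]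
  split_ifs
  · rw [FreeGroup.map.mk]
  · rfl

theorem Q_mem (m : ℕ) {u : ℕ → FreeGroup ℕ} (hu : u ∈ HEG) : Q m u ∈ HEG := by
  obtain ⟨U, hU, rfl⟩ := hu
  exact ⟨qw m U, coh_qw m hU, Z_qw m U⟩

/-- `Q m` on the Hawaiian earring group -/
def q (m : ℕ) : HEG →* HEG where
  toFun u := ⟨Q m u.1, Q_mem m u.2⟩
  map_one' := Subtype.ext (Q_one m)
  map_mul' u v := Subtype.ext (Q_mul m u.1 v.1)

theorem coh_letter (i : ℕ) (s : Bool) : Coh (letter i s) := by
  intro j k hjk
  simp only [letter]
  by_cases hj : i < j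
  · rw [if_pos hj, if_pos (lt_of_lt_of_le hj hjk)]
    simp [cut, hj]
  · rw [if_neg hj]
    by_cases hk : i < k
    · rw [if_pos hk]
      simp only [cut, List.filter_cons, decide_eq_true_eq]
      rw [if_neg hj]
      rfl
    · rw [if_neg hk]
      rfl

/-- the element of a word -/
def el {U : ℕ → Wd} (hU : Coh U) : HEG := ⟨Z U, U, hU, rfl⟩

theorem Q_letter {i m : ℕ} (h : i ≤ m) (s : Bool) : Q m (Z (letter i s)) = Z (letter m s) := by
  funext k
  simp only [Q, Z, letter]
  by_cases hk : m < k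
  · rw [if_pos hk, if_pos hk, if_pos (lt_of_le_of_lt h hk), FreeGroup.map.mk]
    simp [max_eq_right h]
  · rw [if_neg hk, if_neg hk]
    rfl

theorem Z_letter_false (i : ℕ) : Z (letter i false) = (Z (letter i true))⁻¹ := by
  rw [← Z_inv]
  congr 1
  funext k
  simp only [letter, inv]
  split_ifs
  · rfl
  · rfl

instance : NHA.Normal := Subgroup.normalClosure_normal

/-- the projection -/
def pr : HEG →* HEG ⧸ NHA := QuotientGroup.mk' NHA

theorem pr_eq {u v : HEG} : pr u = pr v ↔ u⁻¹ * v ∈ NHA := by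
  simp only [pr, QuotientGroup.mk'_apply]
  exact QuotientGroup.eq

theorem pr_letter_succ (i : ℕ) :
    pr (el (coh_letter i true)) = pr (el (coh_letter (i + 1) true)) := by
  have h1 : el (coh_letter i true) * (el (coh_letter (i + 1) true))⁻¹ ∈ NHA :=
    Subgroup.subset_normalClosure ⟨i, rfl⟩
  have h2 : pr (el (coh_letter i true) * (el (coh_letter (i + 1) true))⁻¹) = 1 := by
    simp only [pr, QuotientGroup.mk'_apply]
    exact (QuotientGroup.eq_one_iff _).2 h1
  rw [map_mul, map_inv] at h2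
  exact mul_inv_eq_one.1 h2

theorem pr_letter_add (i n : ℕ) :
    pr (el (coh_letter i true)) = pr (el (coh_letter (i + n) true)) := by
  induction n with
  | zero => rfl
  | succ n ih => rw [ih]; exact pr_letter_succ (i + n)

theorem pr_letter {i m : ℕ} (h : i ≤ m) (s : Bool) :
    pr (el (coh_letter i s)) = pr (el (coh_letter m s)) := by
  obtain ⟨n, rfl⟩ := Nat.exists_eq_add_of_le h
  have h1 := pr_letter_add i n
  cases s
  · have e : ∀ j, el (coh_letter j false) = (el (coh_letter j true))⁻¹ := fun j =>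
      Subtype.ext (Z_letter_false j)
    rw [e, e, map_inv, map_inv, h1]
  · exact h1

theorem q_letter {i m : ℕ} (h : i ≤ m) (s : Bool) :
    q m (el (coh_letter i s)) = el (coh_letter m s) := Subtype.ext (Q_letter h s)

/-! ### splitting at the first letter of index `< m` -/

/-- the parts before and after the first letter of index `< m` -/
def sp (m : ℕ) : Wd → Wd × Wd
  | [] => ([], [])
  | a :: w => if m ≤ a.1 then (a :: (sp m w).1, (sp m w).2) else ([], w)

theorem cut_nil (k : ℕ) : cut k [] = [] := rfl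

theorem cut_cons_pos {k : ℕ} {a : ℕ × Bool} (h : a.1 < k) (w : Wd) :
    cut k (a :: w) = a :: cut k w := by
  simp only [cut, List.filter_cons, decide_eq_true_eq]
  rw [if_pos h]

theorem cut_cons_neg {k : ℕ} {a : ℕ × Bool} (h : ¬ a.1 < k) (w : Wd) :
    cut k (a :: w) = cut k w := by
  simp only [cut, List.filter_cons, decide_eq_true_eq]
  rw [if_neg h]

theorem cut_append (k : ℕ) (w w' : Wd) : cut k (w ++ w') = cut k w ++ cut k w' := by
  simp only [cut, List.filter_append]

theorem cut_cut {j k : ℕ} (h : j ≤ k) (w : Wd) : cut j (cut k w) = cut j w := by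
  induction w with
  | nil => rfl
  | cons a w ih =>
    by_cases h1 : a.1 < j
    · rw [cut_cons_pos h1, cut_cons_pos (lt_of_lt_of_le h1 h), cut_cons_pos h1, ih]
    · rw [cut_cons_neg h1]
      by_cases h2 : a.1 < k
      · rw [cut_cons_pos h2, cut_cons_neg h1, ih]
      · rw [cut_cons_neg h2, ih]

theorem sp_cut {m J : ℕ} (h : m ≤ J) (w : Wd) :
    sp m (cut J w) = (cut J (sp m w).1, cut J (sp m w).2) := by
  induction w with
  | nil => rfl
  | cons a w ih =>
    by_cases h1 : m ≤ a.1
    · by_cases h2 : a.1 < J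
      · rw [cut_cons_pos h2]
        simp only [sp]
        rw [if_pos h1, if_pos h1, ih]
        simp only
        rw [cut_cons_pos h2]
      · rw [cut_cons_neg h2, ih]
        simp only [sp]
        rw [if_pos h1]
        simp only
        rw [cut_cons_neg h2]
    · have h2 : a.1 < J := by omega
      rw [cut_cons_pos h2]
      simp only [sp]
      rw [if_neg h1, if_neg h1]
      rfl

theorem sp_first (m : ℕ) (w : Wd) : cut m (sp m w).1 = [] := by
  induction w with
  | nil => rfl
  | cons a w ih =>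
    simp only [sp]
    by_cases h1 : m ≤ a.1
    · rw [if_pos h1]
      simp only
      rw [cut_cons_neg (by omega), ih]
    · rw [if_neg h1]
      rfl

theorem sp_eq {m : ℕ} {a : ℕ × Bool} {w' : Wd} (w : Wd) (h : cut m w = a :: w') :
    w = (sp m w).1 ++ a :: (sp m w).2 ∧ cut m (sp m w).2 = w' := by
  induction w with
  | nil => cases h
  | cons b w ih =>
    by_cases h1 : m ≤ b.1
    · rw [cut_cons_neg (by omega)] at h
      obtain ⟨h2, h3⟩ := ih h
      simp only [sp]
      rw [if_pos h1]
      simp only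
      refine ⟨?_, h3⟩
      rw [List.cons_append, ← h2]
    · rw [cut_cons_pos (by omega)] at h
      rw [List.cons.injEq] at h
      obtain ⟨rfl, rfl⟩ := h
      simp only [sp]
      rw [if_neg h1]
      exact ⟨rfl, rfl⟩

/-- first part -/
def pA (m : ℕ) (U : ℕ → Wd) : ℕ → Wd := fun k => cut k (sp m (U (max k m))).1

/-- second part -/
def pB (m : ℕ) (U : ℕ → Wd) : ℕ → Wd := fun k => cut k (sp m (U (max k m))).2

theorem coh_pA {m : ℕ} {U : ℕ → Wd} (hU : Coh U) : Coh (pA m U) := by
  intro j k hjk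
  simp only [pA]
  rw [cut_cut hjk]
  have h1 : U (max j m) = cut (max j m) (U (max k m)) :=
    (hU _ _ (max_le_max hjk le_rfl)).symm
  rw [h1, sp_cut (le_max_right j m)]
  simp only
  rw [cut_cut (le_max_left j m)]

theorem coh_pB {m : ℕ} {U : ℕ → Wd} (hU : Coh U) : Coh (pB m U) := by
  intro j k hjk
  simp only [pB]
  rw [cut_cut hjk]
  have h1 : U (max j m) = cut (max j m) (U (max k m)) :=
    (hU _ _ (max_le_max hjk le_rfl)).symm
  rw [h1, sp_cut (le_max_right j m)]
  simp only
  rw [cut_cut (le_max_left j m)]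

theorem split {m : ℕ} {U : ℕ → Wd} (hU : Coh U) {a : ℕ × Bool} {w' : Wd} (h : U m = a :: w') :
    U = cat (pA m U) (cat (letter a.1 a.2) (pB m U)) ∧ pA m U m = [] ∧ pB m U m = w' := by
  have h0 : ∀ k, cut m (U (max k m)) = a :: w' := fun k => by
    rw [hU _ _ (le_max_right k m), h]
  refine ⟨?_, ?_, ?_⟩
  · funext k
    simp only [cat, pA, pB]
    have h1 := (sp_eq _ (h0 k)).1
    have h2 : U k = cut k (U (max k m)) := (hU _ _ (le_max_left k m)).symm
    have h3 : cut k (U (max k m)) =
        cut k ((sp m (U (max k m))).1 ++ a :: (sp m (U (max k m))).2) := by rw [← h1]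
    rw [h2, h3, cut_append]
    congr 1
    simp only [letter]
    by_cases h4 : a.1 < k
    · rw [cut_cons_pos h4, if_pos h4]
      rfl
    · rw [cut_cons_neg h4, if_neg h4]
      rfl
  · simp only [pA]
    exact sp_first m _
  · simp only [pB]
    exact (sp_eq _ (h0 m)).2

theorem map_of_cut_nil {m : ℕ} (w : Wd) (h : cut m w = []) :
    w.map (fun a => (max a.1 m, a.2)) = w := by
  induction w with
  | nil => rfl
  | cons a w ih =>
    by_cases h1 : a.1 < m
    · rw [cut_cons_pos h1] at h
      cases h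
    · rw [cut_cons_neg h1] at h
      rw [List.map_cons, ih h, max_eq_left (not_lt.1 h1)]

theorem q_of_nil {m : ℕ} {U : ℕ → Wd} (hU : Coh U) (h : U m = []) : q m (el hU) = el hU := by
  apply Subtype.ext
  change Q m (Z U) = Z U
  rw [← Z_qw]
  congr 1
  funext k
  simp only [qw]
  by_cases hk : m < k
  · rw [if_pos hk]
    apply map_of_cut_nil
    rw [hU m k hk.le, h]
  · rw [if_neg hk, ← hU k m (not_lt.1 hk), h]
    rfl

theorem mem_lt {m : ℕ} {U : ℕ → Wd} (hU : Coh U) {a : ℕ × Bool} (h : a ∈ U m) : a.1 < m := by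
  rw [← hU m m le_rfl] at h
  simp only [cut, List.mem_filter, decide_eq_true_eq] at h
  exact h.2

theorem pr_q (m n : ℕ) : ∀ (U : ℕ → Wd) (hU : Coh U), (U m).length = n →
    pr (q m (el hU)) = pr (el hU) := by
  induction n with
  | zero =>
    intro U hU h
    rw [q_of_nil hU (List.length_eq_zero_iff.1 h)]
  | succ n ih =>
    intro U hU h
    obtain ⟨a, w', hw⟩ : ∃ a w', U m = a :: w' := by
      cases hc : U m with
      | nil => rw [hc] at h; cases h
      | cons a w' => exact ⟨a, w', rfl⟩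
    obtain ⟨h1, h2, h3⟩ := split hU hw
    have ha : a.1 < m := mem_lt hU (by rw [hw]; exact List.mem_cons_self)
    have e : el hU = el (coh_pA (m := m) hU) * (el (coh_letter a.1 a.2) * el (coh_pB (m := m) hU)) := by
      apply Subtype.ext
      change Z U = Z (pA m U) * (Z (letter a.1 a.2) * Z (pB m U))
      rw [← Z_cat, ← Z_cat, ← h1]
    have h4 : pr (q m (el (coh_pB (m := m) hU))) = pr (el (coh_pB (m := m) hU)) := by
      apply ih
      rw [h3]
      rw [hw, List.length_cons] at h
      omega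
    rw [e, map_mul (q m), map_mul (q m), map_mul pr, map_mul pr, q_of_nil _ h2, q_letter ha.le, h4,
      map_mul pr, map_mul pr, pr_letter ha.le]

/-- the elements killed by almost all `Q m` -/
def K : Subgroup HEG where
  carrier := {w | ∀ᶠ m in atTop, Q m w.1 = 1}
  mul_mem' := by
    intro u v hu hv
    have hu' : ∀ᶠ m in atTop, Q m u.1 = 1 := hu
    have hv' : ∀ᶠ m in atTop, Q m v.1 = 1 := hv
    change ∀ᶠ m in atTop, Q m (u.1 * v.1) = 1
    filter_upwards [hu', hv'] with m h1 h2
    rw [Q_mul, h1, h2, one_mul]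
  one_mem' := by
    change ∀ᶠ m in atTop, Q m 1 = 1
    exact Eventually.of_forall Q_one
  inv_mem' := by
    intro u hu
    have hu' : ∀ᶠ m in atTop, Q m u.1 = 1 := hu
    change ∀ᶠ m in atTop, Q m (u.1)⁻¹ = 1
    filter_upwards [hu'] with m h1
    rw [Q_inv, h1, inv_one]

instance : K.Normal where
  conj_mem := by
    intro u hu g
    have hu' : ∀ᶠ m in atTop, Q m u.1 = 1 := hu
    change ∀ᶠ m in atTop, Q m (g.1 * u.1 * (g.1)⁻¹) = 1
    filter_upwards [hu'] with m h1
    rw [Q_mul, Q_mul, h1, Q_inv, mul_one, mul_inv_cancel]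

theorem NHA_le : NHA ≤ K := by
  apply Subgroup.normalClosure_le_normal
  rintro v ⟨i, hi⟩
  change ∀ᶠ m in atTop, Q m v.1 = 1
  filter_upwards [eventually_ge_atTop (i + 1)] with m hm
  rw [hi, Q_mul, Q_inv, Q_letter (by omega), Q_letter hm, mul_inv_cancel]

end HAM

open HAM

theorem t_QKILL : S_QKILL := by
  intro m u
  refine ⟨q m u, rfl, ?_⟩
  obtain ⟨_, U, hU, rfl⟩ := u
  have h1 := pr_q m (U m).length U hU rfl
  exact pr_eq.1 h1.symm

theorem t_HAMAIN : S_QKILL → S_HAMAIN := by
  intro hQ u v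
  constructor
  · intro h
    have h1 : ∀ᶠ m in atTop, Q m ((u.1)⁻¹ * v.1) = 1 := NHA_le h
    filter_upwards [h1] with m hm
    rw [Q_mul, Q_inv] at hm
    exact inv_mul_eq_one.1 hm
  · intro h
    obtain ⟨m, hm⟩ := h.exists
    obtain ⟨u', hu1, hu2⟩ := hQ m u
    obtain ⟨v', hv1, hv2⟩ := hQ m v
    have huv : u' = v' := Subtype.ext (by rw [hu1, hv1, hm])
    subst huv
    have h1 := NHA.mul_mem hu2 (NHA.inv_mem hv2)
    have e : u⁻¹ * u' * (v⁻¹ * u')⁻¹ = u⁻¹ * v := by group
    rwa [e] at h1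

end Pool.Agent.H742.GA
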