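import Pool.Agent.H742.GA.Stm

set_option autoImplicit false

open Filter

noncomputable section

namespace Pool.Agent.H742.GA

namespace KILL

theorem ev_eq {s : ℕ → Wd} {w : Wd} (h : ∀ᶠ k in atTop, s k = w) : ev s = w := by
  classical
  have hex : ∃ w, ∀ᶠ k in atTop, s k = w := ⟨w, h⟩
  unfold ev
  rw [dif_pos hex]
  have h1 := Classical.choose_spec hex
  obtain ⟨k, h2, h3⟩ := (h.and h1).exists
  rw [← h3, h2]

/-- `V` is the limit of the words `s k` -/
def Stab (s V : ℕ → Wd) : Prop := ∀ j, ∀ᶠ k in atTop, cut j (s k) = V j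

theorem cut_cut {i j : ℕ} (h : i ≤ j) (w : Wd) : cut i (cut j w) = cut i w := by
  unfold cut
  rw [List.filter_filter]
  apply List.filter_congr
  intro a _
  by_cases h1 : a.1 < i
  · have h2 : a.1 < j := lt_of_lt_of_le h1 h
    simp [h1, h2]
  · simp [h1]

theorem cut_append (j : ℕ) (u v : Wd) : cut j (u ++ v) = cut j u ++ cut j v := by
  unfold cut
  exact List.filter_append ..

theorem cut_reverse (j : ℕ) (u : Wd) : cut j u.reverse = (cut j u).reverse := by
  unfold cut
  exact List.filter_reverse ..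

theorem mem_cut {j : ℕ} {u : Wd} {x : ℕ × Bool} : x ∈ cut j u ↔ x ∈ u ∧ x.1 < j := by
  unfold cut
  simp

theorem cut_eq_nil {j : ℕ} {u : Wd} : cut j u = [] ↔ ∀ x ∈ u, j ≤ x.1 := by
  rw [List.eq_nil_iff_forall_not_mem]
  constructor
  · intro h x hx
    by_contra hcon
    exact h x (mem_cut.2 ⟨hx, not_le.1 hcon⟩)
  · intro h x hx
    have h1 := mem_cut.1 hx
    exact absurd h1.2 (not_lt.2 (h x h1.1))

theorem Stab.coh {s V : ℕ → Wd} (h : Stab s V) : Coh V := by
  intro i j hij
  obtain ⟨k, h1, h2⟩ := ((h i).and (h j)).exists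
  rw [← h1, ← h2, cut_cut hij]

theorem stab_self {U : ℕ → Wd} (h : Coh U) : Stab U U := fun j =>
  eventually_atTop.2 ⟨j, fun k hk => h j k hk⟩

theorem Stab.reverse {s V : ℕ → Wd} (h : Stab s V) :
    Stab (fun k => (s k).reverse) (fun k => (V k).reverse) := by
  intro j
  filter_upwards [h j] with k hk
  rw [cut_reverse, hk]

theorem Stab.mem {s V : ℕ → Wd} (h : Stab s V) {p : ℕ × Bool → Prop}
    (hp : ∀ k, ∀ x ∈ s k, p x) (j : ℕ) : ∀ x ∈ V j, p x := by
  obtain ⟨k, hk⟩ := (h j).exists
  intro x hx
  rw [← hk] at hx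
  exact hp k x (mem_cut.1 hx).1

theorem stab_right {U U' s V t : ℕ → Wd} (h : ∀ᶠ k in atTop, U k = s k ++ t k)
    (hU : Stab U U') (hs : Stab s V) : ∃ B, Stab t B ∧ ∀ j, U' j = V j ++ B j := by
  have key : ∀ j, ∀ᶠ k in atTop, U' j = V j ++ cut j (t k) := by
    intro j
    filter_upwards [h, hU j, hs j] with k h1 h2 h3
    rw [← h2, h1, cut_append, h3]
  have hex : ∀ j, ∃ w, (∀ᶠ k in atTop, cut j (t k) = w) ∧ U' j = V j ++ w := by
    intro j
    obtain ⟨k0, hk0⟩ := (key j).exists
    refine ⟨cut j (t k0), ?_, hk0⟩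
    filter_upwards [key j] with k hk
    rw [hk0] at hk
    exact (List.append_cancel_left hk).symm
  choose B hB using hex
  exact ⟨B, fun j => (hB j).1, fun j => (hB j).2⟩

theorem take_prefix {U : ℕ → Wd} (hU : Coh U) (q : ℕ × Bool → Bool) {j k : ℕ} (hjk : j ≤ k) :
    cut j ((U k).takeWhile q) <+: (U j).takeWhile q := by
  have h1 : U j = cut j ((U k).takeWhile q) ++ cut j ((U k).dropWhile q) := by
    rw [← cut_append, List.takeWhile_append_dropWhile, hU j k hjk]
  rw [h1, List.takeWhile_append_of_pos]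
  · exact List.prefix_append _ _
  · intro x hx
    exact List.mem_takeWhile_imp (mem_cut.1 hx).1

theorem take_stab {U : ℕ → Wd} (hU : Coh U) (q : ℕ × Bool → Bool) :
    ∃ V, Stab (fun k => (U k).takeWhile q) V := by
  have hex : ∀ i, ∃ w, ∀ᶠ k in atTop, cut i ((U k).takeWhile q) = w := by
    intro i
    have hpre : ∀ j k, i ≤ j → j ≤ k →
        cut i ((U k).takeWhile q) <+: cut i ((U j).takeWhile q) := by
      intro j k hij hjk
      rw [← cut_cut hij]
      exact (take_prefix hU q hjk).filter _
    obtain ⟨K, hK, hmin⟩ : ∃ K, i ≤ K ∧ ∀ k, i ≤ k →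
        (cut i ((U K).takeWhile q)).length ≤ (cut i ((U k).takeWhile q)).length := by
      classical
      have hne : ∃ m, ∃ K, i ≤ K ∧ (cut i ((U K).takeWhile q)).length = m := ⟨_, i, le_rfl, rfl⟩
      obtain ⟨K, hK1, hK2⟩ := Nat.find_spec hne
      refine ⟨K, hK1, fun k hk => ?_⟩
      rw [hK2]
      exact Nat.find_min' hne ⟨k, hk, rfl⟩
    refine ⟨cut i ((U K).takeWhile q), eventually_atTop.2 ⟨K, fun k hk => ?_⟩⟩
    exact (hpre K k hK hk).eq_of_length_le (hmin k (hK.trans hk))
  choose V hV using hex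
  exact ⟨V, hV⟩

theorem del_append {n : ℕ} {l m : Wd}
    (h : ∀ x ∈ l.getLast?, ∀ y ∈ m.head?, (x.1 % 2 == y.1 % 2) = false) :
    del n (l ++ m) = del n l ++ del n m := by
  unfold del
  rw [List.splitBy_append h, List.filter_append, List.flatten_append]

theorem mem_of_mem_splitBy {w r : Wd} {x : ℕ × Bool}
    (hr : r ∈ w.splitBy (fun a b => a.1 % 2 == b.1 % 2)) (hx : x ∈ r) : x ∈ w := by
  have h1 : x ∈ (w.splitBy (fun a b => a.1 % 2 == b.1 % 2)).flatten :=
    List.mem_flatten.2 ⟨r, hr, hx⟩
  rwa [List.flatten_splitBy] at h1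

theorem mem_del {n : ℕ} {w : Wd} {x : ℕ × Bool} (hx : x ∈ del n w) : x ∈ w := by
  unfold del at hx
  obtain ⟨r, hr, hx⟩ := List.mem_flatten.1 hx
  exact mem_of_mem_splitBy (List.mem_filter.1 hr).1 hx

theorem del_big {n : ℕ} {w : Wd} (h : ∀ x ∈ w, n ≤ x.1) : del n w = w := by
  unfold del
  rw [List.filter_eq_self.2, List.flatten_splitBy]
  intro r hr
  rw [List.all_eq_true]
  intro x hx
  exact decide_eq_true (h x (mem_of_mem_splitBy hr hx))

theorem del_run {n b : ℕ} {w : Wd} {a : ℕ × Bool} (h : ∀ x ∈ w, x.1 % 2 = b) (ha : a ∈ w)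
    (han : a.1 < n) : del n w = [] := by
  unfold del
  have hne : w ≠ [] := List.ne_nil_of_mem ha
  have hch : w.IsChain fun x y => (x.1 % 2 == y.1 % 2) = true := by
    have h1 : w.Pairwise fun x y => (x.1 % 2 == y.1 % 2) = true := by
      rw [List.pairwise_iff_forall_sublist]
      intro x y hxy
      have hx : x ∈ w := hxy.subset (by simp)
      have hy : y ∈ w := hxy.subset (by simp)
      rw [h x hx, h y hy]
      simp
    exact h1.isChain
  rw [List.splitBy_of_isChain hne hch]
  have hf : (w.all fun x => decide (n ≤ x.1)) = false := by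
    rw [List.all_eq_false]
    exact ⟨a, ha, by simpa using han⟩
  simp [hf]

theorem head_dropWhile {q : ℕ × Bool → Bool} {w r : Wd} {c : ℕ × Bool}
    (h : w.dropWhile q = c :: r) : q c = false := by
  have h1 := List.head?_dropWhile_not q w
  rw [h] at h1
  simpa using h1

theorem delI_eq {n : ℕ} {U V : ℕ → Wd} (h : Stab (fun k => del n (U k)) V) : DelI n U = V := by
  funext j
  exact ev_eq (h j)

theorem first_split {n : ℕ} {U : ℕ → Wd} (hU : Coh U) (h0 : U n ≠ []) :
    ∃ (a : ℕ × Bool) (P Q : ℕ → Wd), Coh P ∧ Coh Q ∧ a.1 < n ∧ (∀ k, ∀ x ∈ P k, n ≤ x.1) ∧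
      ∀ k, U k = P k ++ (cut k [a] ++ Q k) := by
  obtain ⟨P, hP⟩ := take_stab hU fun x => decide (n ≤ x.1)
  obtain ⟨D, hD, hUD⟩ := stab_right (U := U) (t := fun k => (U k).dropWhile fun x => decide (n ≤ x.1))
    (Eventually.of_forall fun k => List.takeWhile_append_dropWhile.symm) (stab_self hU) hP
  obtain ⟨a, w0, hw⟩ : ∃ a w0, U n = a :: w0 := List.exists_cons_of_ne_nil h0
  have han : a.1 < n := by
    have h1 : a ∈ cut n (U n) := by
      rw [hU n n le_rfl, hw]
      exact List.mem_cons_self
    exact (mem_cut.1 h1).2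
  have hev : ∀ᶠ k in atTop, (U k).dropWhile (fun x => decide (n ≤ x.1)) =
      [a] ++ ((U k).dropWhile fun x => decide (n ≤ x.1)).tail := by
    filter_upwards [eventually_ge_atTop n] with k hk
    have h1 : cut n ((U k).takeWhile fun x => decide (n ≤ x.1)) = [] := by
      rw [cut_eq_nil]
      intro x hx
      simpa using List.mem_takeWhile_imp hx
    have h2 : U n = cut n ((U k).dropWhile fun x => decide (n ≤ x.1)) := by
      rw [← hU n k hk]
      conv_lhs => rw [← List.takeWhile_append_dropWhile (p := fun x => decide (n ≤ x.1)) (l := U k)]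
      rw [cut_append, h1, List.nil_append]
    cases hd : (U k).dropWhile fun x => decide (n ≤ x.1) with
    | nil =>
      rw [hd] at h2
      exact absurd h2 h0
    | cons c r =>
      have h3 : c.1 < n := by
        have := head_dropWhile hd
        simpa using this
      rw [hd, hw] at h2
      have h4 : cut n (c :: r) = c :: cut n r := by
        unfold cut
        rw [List.filter_cons_of_pos (by simpa using h3)]
      rw [h4] at h2
      have h5 : a = c := (List.cons.inj h2).1
      rw [h5]
      rfl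
  obtain ⟨Q, hQ, hDQ⟩ := stab_right (s := fun _ => [a]) (V := fun j => cut j [a]) hev hD
    (fun j => Eventually.of_forall fun k => rfl)
  refine ⟨a, P, Q, hP.coh, hQ.coh, han, fun k => hP.mem (fun k x hx => ?_) k, fun k => ?_⟩
  · simpa using List.mem_takeWhile_imp hx
  · rw [hUD k, hDQ k]

theorem base {n : ℕ} {U : ℕ → Wd} (hU : Coh U) (h0 : U n = []) : DelI n U = U := by
  apply delI_eq
  intro j
  filter_upwards [eventually_ge_atTop n, eventually_ge_atTop j] with k hk hj
  have h1 : ∀ x ∈ U k, n ≤ x.1 := by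
    rw [← cut_eq_nil, hU n k hk, h0]
  rw [del_big h1]
  exact hU j k hj

theorem decomp (hDEL : S_DEL) {n : ℕ} {U : ℕ → Wd} (hU : Coh U) (h0 : U n ≠ []) :
    ∃ (b : ℕ) (A V B : ℕ → Wd), Coh A ∧ Coh V ∧ Coh B ∧ Pure b V ∧ (B n).length < (U n).length ∧
      U = cat A (cat V B) ∧ DelI n U = cat A (DelI n B) := by
  obtain ⟨a, P, Q, hP, hQ, han, hPn, hUk⟩ := first_split hU h0
  set q : ℕ × Bool → Bool := fun x => x.1 % 2 == a.1 % 2 with hq
  have hqt : ∀ x, q x = true → x.1 % 2 = a.1 % 2 := fun x hx => by simpa [hq] using hx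
  have hqf : ∀ x, q x = false → x.1 % 2 ≠ a.1 % 2 := fun x hx => by simpa [hq] using hx
  have hPr : Coh fun k => (P k).reverse := ((stab_self hP).reverse).coh
  obtain ⟨W', hW'⟩ := take_stab hQ q
  obtain ⟨B, hB, hQB⟩ := stab_right (U := Q) (t := fun k => (Q k).dropWhile q)
    (Eventually.of_forall fun k => List.takeWhile_append_dropWhile.symm) (stab_self hQ) hW'
  obtain ⟨Wr, hWr⟩ := take_stab hPr q
  obtain ⟨Ar, hAr, hPA⟩ := stab_right (U := fun k => (P k).reverse)
    (t := fun k => ((P k).reverse).dropWhile q)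
    (Eventually.of_forall fun k => List.takeWhile_append_dropWhile.symm) (stab_self hPr) hWr
  have hW := hWr.reverse
  have hA := hAr.reverse
  have hPk : ∀ k, P k = (Ar k).reverse ++ (Wr k).reverse := by
    intro k
    rw [← List.reverse_append, ← hPA k, List.reverse_reverse]
  -- the word
  have hUcat : U = cat (fun k => (Ar k).reverse)
      (cat (fun k => (Wr k).reverse ++ (cut k [a] ++ W' k)) B) := by
    funext k
    simp only [cat]
    rw [hUk k, hPk k, hQB k]
    simp only [List.append_assoc]
  have hVst : Stab (fun k => (((P k).reverse).takeWhile q).reverse ++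
      ([a] ++ (Q k).takeWhile q)) (fun k => (Wr k).reverse ++ (cut k [a] ++ W' k)) := by
    intro j
    filter_upwards [hW j, hW' j] with k h1 h2
    rw [cut_append, cut_append, h1, h2]
  refine ⟨a.1 % 2, fun k => (Ar k).reverse, fun k => (Wr k).reverse ++ (cut k [a] ++ W' k), B,
    hA.coh, hVst.coh, hB.coh, ?_, ?_, hUcat, ?_⟩
  · -- pure
    intro j
    refine hVst.mem (p := fun x => x.1 % 2 = a.1 % 2) (fun k x hx => ?_) j
    simp only [List.mem_append, List.mem_reverse, List.mem_singleton] at hx
    rcases hx with hx | hx | hx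
    · exact hqt x (List.mem_takeWhile_imp hx)
    · rw [hx]
    · exact hqt x (List.mem_takeWhile_imp hx)
  · -- length
    have h1 : cut n [a] = [a] := by
      unfold cut
      rw [List.filter_cons_of_pos (by simpa using han)]
      rfl
    rw [hUk n, hQB n, h1]
    simp only [List.length_append, List.length_singleton]
    omega
  · -- deletion
    apply delI_eq
    intro j
    have hDB := (hDEL n B hB.coh).2 j
    filter_upwards [hDB, hA j, hW' j, eventually_ge_atTop n, eventually_ge_atTop j] with k hDBk hAk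
      hWk hkn hkj
    -- the run at level `k`
    have hak : cut k [a] = [a] := by
      unfold cut
      rw [List.filter_cons_of_pos (by simpa using lt_of_lt_of_le han hkn)]
      rfl
    set Ak := (((P k).reverse).dropWhile q).reverse with hAkdef
    set Wk := (((P k).reverse).takeWhile q).reverse with hWkdef
    set Sk := (Q k).takeWhile q with hSkdef
    set Tk := (Q k).dropWhile q with hTkdef
    have hPk' : P k = Ak ++ Wk := by
      rw [hAkdef, hWkdef, ← List.reverse_append, List.takeWhile_append_dropWhile,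
        List.reverse_reverse]
    have hQk' : Q k = Sk ++ Tk := List.takeWhile_append_dropWhile.symm
    have hUk' : U k = Ak ++ ((Wk ++ a :: Sk) ++ Tk) := by
      rw [hUk k, hak, hPk', hQk']
      simp
    have hrun : ∀ x ∈ Wk ++ a :: Sk, x.1 % 2 = a.1 % 2 := by
      intro x hx
      rw [List.mem_append, List.mem_cons] at hx
      rcases hx with hx | hx | hx
      · exact hqt x (List.mem_takeWhile_imp (List.mem_reverse.1 hx))
      · rw [hx]
      · exact hqt x (List.mem_takeWhile_imp hx)
    have hThead : ∀ y ∈ Tk.head?, y.1 % 2 ≠ a.1 % 2 := by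
      intro y hy
      cases hT : Tk with
      | nil => rw [hT] at hy; simp at hy
      | cons c r =>
        rw [hT] at hy
        simp only [List.head?_cons, Option.mem_def, Option.some.injEq] at hy
        rw [← hy]
        exact hqf c (head_dropWhile hT)
    have hAlast : ∀ y ∈ Ak.getLast?, y.1 % 2 ≠ a.1 % 2 := by
      intro y hy
      rw [hAkdef, List.getLast?_reverse] at hy
      cases hT : ((P k).reverse).dropWhile q with
      | nil => rw [hT] at hy; simp at hy
      | cons c r =>
        rw [hT] at hy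
        simp only [List.head?_cons, Option.mem_def, Option.some.injEq] at hy
        rw [← hy]
        exact hqf c (head_dropWhile hT)
    have hAbig : ∀ x ∈ Ak, n ≤ x.1 := by
      intro x hx
      refine hPn k x ?_
      rw [hPk']
      exact List.mem_append_left _ hx
    have hmemL : ∀ {l : Wd} {x : ℕ × Bool}, x ∈ l.getLast? → x ∈ l := fun hx =>
      List.mem_of_getLast? hx
    have hmemH : ∀ {l : Wd} {x : ℕ × Bool}, x ∈ l.head? → x ∈ l := fun hx =>
      List.mem_of_mem_head? hx
    have hdel1 : del n (U k) = Ak ++ del n Tk := by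
      rw [hUk', del_append, del_append, del_big hAbig,
        del_run hrun (List.mem_append_right _ List.mem_cons_self) han, List.nil_append]
      · intro x hx y hy
        have h1 := hrun x (hmemL hx)
        have h2 := hThead y hy
        rw [h1]
        simpa using fun h => h2 h.symm
      · intro x hx y hy
        have h1 := hAlast x hx
        have h2 : y.1 % 2 = a.1 % 2 := by
          refine hrun y ?_
          have h3 : y ∈ (Wk ++ a :: Sk).head? := by
            rw [List.head?_append] at hy
            have h4 : (Wk ++ a :: Sk).head? ≠ none := by simp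
            obtain ⟨z, hz⟩ := Option.ne_none_iff_exists'.1 h4
            rw [hz] at hy ⊢
            simpa using hy
          exact hmemH h3
        rw [h2]
        simpa using h1
    -- the words `B k`
    obtain ⟨X, hX⟩ : ∃ X, Sk = W' k ++ X := by
      obtain ⟨k', h1, h2⟩ := ((hW' k).and (eventually_ge_atTop k)).exists
      have h3 := take_prefix hQ q h2
      rw [h1] at h3
      obtain ⟨X, hX⟩ := h3
      exact ⟨X, hX.symm⟩
    have hBk : B k = X ++ Tk := by
      have h1 : W' k ++ B k = W' k ++ (X ++ Tk) := by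
        rw [← hQB k, ← List.append_assoc, ← hX, ← hQk']
      exact List.append_cancel_left h1
    have hcX : cut j X = [] := by
      have h1 : cut j Sk = cut j (W' k) ++ cut j X := by rw [hX, cut_append]
      rw [hWk, hW'.coh j k hkj] at h1
      have h2 : W' j ++ [] = W' j ++ cut j X := by rw [List.append_nil]; exact h1
      exact (List.append_cancel_left h2).symm
    have hdel2 : del n (B k) = del n X ++ del n Tk := by
      rw [hBk, del_append]
      intro x hx y hy
      have h1 : x.1 % 2 = a.1 % 2 := by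
        refine hqt x (List.mem_takeWhile_imp (l := Q k) ?_)
        rw [← hSkdef, hX]
        exact List.mem_append_right _ (hmemL hx)
      have h2 := hThead y hy
      rw [h1]
      simpa using fun h => h2 h.symm
    have hcdX : cut j (del n X) = [] := by
      rw [cut_eq_nil] at hcX ⊢
      exact fun x hx => hcX x (mem_del hx)
    rw [hdel1, cut_append, hAk]
    simp only [cat]
    rw [← hDBk, hdel2, cut_append, hcdX, List.nil_append]

theorem aux (hDEL : S_DEL) (n : ℕ) : ∀ (N : ℕ) (U : ℕ → Wd), (U n).length = N → Coh U →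
    ∀ u v : HEG, Z U = u.1 → Z (DelI n U) = v.1 → u⁻¹ * v ∈ NGS := by
  intro N
  induction N using Nat.strong_induction_on with
  | _ N ih =>
    intro U hN hU u v hu hv
    by_cases h0 : U n = []
    · rw [base hU h0] at hv
      have h1 : u = v := Subtype.ext (hu.symm.trans hv)
      rw [h1, inv_mul_cancel]
      exact NGS.one_mem
    · obtain ⟨b, A, V, B, hA, hV, hB, hpure, hlen, hUc, hDc⟩ := decomp hDEL hU h0
      obtain ⟨x, hx⟩ : ∃ x : HEG, Z A = x.1 := ⟨⟨Z A, A, hA, rfl⟩, rfl⟩
      obtain ⟨c, hc⟩ : ∃ c : HEG, Z V = c.1 := ⟨⟨Z V, V, hV, rfl⟩, rfl⟩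
      obtain ⟨d, hd⟩ : ∃ d : HEG, Z B = d.1 := ⟨⟨Z B, B, hB, rfl⟩, rfl⟩
      obtain ⟨e, he⟩ : ∃ e : HEG, Z (DelI n B) = e.1 :=
        ⟨⟨Z (DelI n B), DelI n B, (hDEL n B hB).1, rfl⟩, rfl⟩
      have h1 := ih (B n).length (by omega) B rfl hB d e hd he
      have h2 : c ∈ NGS := Subgroup.subset_normalClosure ⟨b, V, hV, hpure, hc⟩
      have hu' : u = x * (c * d) := by
        apply Subtype.ext
        rw [← hu, hUc, Z_cat, Z_cat, hx, hc, hd]
        rfl
      have hv' : v = x * e := by
        apply Subtype.ext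
        rw [← hv, hDc, Z_cat, hx, he]
        rfl
      have hn : NGS.Normal := Subgroup.normalClosure_normal
      have h3 : u⁻¹ * v = (d⁻¹ * c⁻¹ * d) * (d⁻¹ * e) := by
        rw [hu', hv']
        group
      rw [h3]
      refine NGS.mul_mem ?_ h1
      have h4 := hn.conj_mem c⁻¹ (NGS.inv_mem h2) d⁻¹
      rwa [inv_inv] at h4

end KILL

theorem t_KILL (h : S_DEL) : S_KILL := fun n U hU u v hu hv =>
  KILL.aux h n _ U rfl hU u v hu hv

end Pool.Agent.H742.GA
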