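import Pool.Agent.H742.GA.Stm

/-!
# The lower bound for the Griffiths side
-/

set_option autoImplicit false

open Filter

noncomputable section

namespace Pool.Agent.H742.GA

namespace LBGS

/-! ### the list of the indices -/

/-- the block of an odd index -/
def bl (t : ℕ) : ℕ := (Nat.unpair (t / 2)).1

/-- the even letter of the block `n` -/
def TE (n k : ℕ) : List ℕ := if 2 * n < k then [2 * n] else []

/-- the odd letters of the block `n` -/
def TO (n k : ℕ) : List ℕ := (List.range k).filter (fun t => decide (t % 2 = 1 ∧ bl t = n))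

/-- the blocks `n, n + 1, …` -/
def TT (n k : ℕ) : List ℕ := (List.range' n (k - n)).flatMap (fun m => TE m k ++ TO m k)

lemma bl_le (t : ℕ) : bl t ≤ t / 2 := Nat.unpair_left_le _

lemma bl_pair (n i : ℕ) : bl (2 * Nat.pair n i + 1) = n := by
  have h : (2 * Nat.pair n i + 1) / 2 = Nat.pair n i := by omega
  unfold bl
  rw [h, Nat.unpair_pair]

lemma mem_TE {n k t : ℕ} : t ∈ TE n k ↔ t = 2 * n ∧ 2 * n < k := by
  unfold TE
  split
  · simp [*]
  · simp [*]

lemma mem_TO {n k t : ℕ} : t ∈ TO n k ↔ t < k ∧ t % 2 = 1 ∧ bl t = n := by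
  unfold TO
  rw [List.mem_filter, List.mem_range, decide_eq_true_eq]

lemma TE_nil {n k : ℕ} (h : k ≤ 2 * n) : TE n k = [] := by
  unfold TE
  rw [if_neg (by omega)]

lemma TO_nil {n k : ℕ} (h : k ≤ 2 * n) : TO n k = [] := by
  rw [List.eq_nil_iff_forall_not_mem]
  intro t ht
  rw [mem_TO] at ht
  have := bl_le t
  omega

lemma TT_nil {n k : ℕ} (h : k ≤ 2 * n) : TT n k = [] := by
  unfold TT
  rw [List.flatMap_eq_nil_iff]
  intro m hm
  rw [List.mem_range'_1] at hm
  rw [TE_nil (by omega), TO_nil (by omega)]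
  rfl

lemma TT_rec (n k : ℕ) : TT n k = TE n k ++ (TO n k ++ TT (n + 1) k) := by
  rcases Nat.lt_or_ge n k with h | h
  · have h1 : k - n = (k - (n + 1)) + 1 := by omega
    unfold TT
    rw [h1, List.range'_succ, List.flatMap_cons, List.append_assoc]
  · rw [TT_nil (by omega), TE_nil (by omega), TO_nil (by omega), TT_nil (by omega)]
    rfl

lemma mem_TT {n k t : ℕ} (h : t ∈ TT n k) : t < k ∧ (t % 2 = 1 → n ≤ bl t) := by
  unfold TT at h
  rw [List.mem_flatMap] at h
  obtain ⟨m, hm, h⟩ := h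
  rw [List.mem_range'_1] at hm
  rw [List.mem_append, mem_TE, mem_TO] at h
  rcases h with h | h
  · exact ⟨by omega, fun h1 => by omega⟩
  · exact ⟨h.1, fun _ => by omega⟩

lemma TT_prefix (n k : ℕ) : ∃ P : List ℕ, TT 0 k = P ++ TT n k := by
  induction n with
  | zero => exact ⟨[], rfl⟩
  | succ n ih =>
    obtain ⟨P, h⟩ := ih
    refine ⟨P ++ (TE n k ++ TO n k), ?_⟩
    rw [h, TT_rec n k]
    simp only [List.append_assoc]

lemma TT_head (n k : ℕ) : ∀ y ∈ (TT n k).head?, y % 2 = 0 := by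
  intro y hy
  rcases Nat.lt_or_ge (2 * n) k with h | h
  · rw [TT_rec n k] at hy
    unfold TE at hy
    rw [if_pos h] at hy
    simp only [List.cons_append, List.head?_cons, Option.mem_def, Option.some.injEq] at hy
    omega
  · rw [TT_nil h] at hy
    simp at hy

/-- number of the block -/
def bn (t : ℕ) : ℕ := if t % 2 = 0 then t / 2 else bl t

lemma bn_of_mem {n k t : ℕ} (h : t ∈ TE n k ++ TO n k) : bn t = n := by
  rw [List.mem_append, mem_TE, mem_TO] at h
  unfold bn
  rcases h with h | h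
  · rw [if_pos (by omega)]
    omega
  · rw [if_neg (by omega)]
    exact h.2.2

lemma TT_nodup (n k : ℕ) : (TT n k).Nodup := by
  unfold TT
  rw [List.nodup_flatMap]
  refine ⟨fun m _ => ?_, ?_⟩
  · rw [List.nodup_append]
    refine ⟨?_, List.Nodup.filter _ List.nodup_range, ?_⟩
    · unfold TE
      split
      · exact List.nodup_singleton _
      · exact List.nodup_nil
    · intro a ha b hb hab
      rw [mem_TE] at ha
      rw [mem_TO] at hb
      omega
  · refine List.Pairwise.imp ?_ (List.nodup_range' (s := n) (n := k - n))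
    intro a b hab t ht ht'
    exact hab ((bn_of_mem ht).symm.trans (bn_of_mem ht'))

/-! ### coherence -/

lemma TE_coh {n j k : ℕ} (h : j ≤ k) : (TE n k).filter (fun t => decide (t < j)) = TE n j := by
  unfold TE
  rcases Nat.lt_or_ge (2 * n) j with h1 | h1
  · rw [if_pos h1, if_pos (by omega)]
    simp [h1]
  · rw [if_neg (by omega : ¬ 2 * n < j)]
    split
    · simp
      omega
    · rfl

lemma TO_coh {n j k : ℕ} (h : j ≤ k) : (TO n k).filter (fun t => decide (t < j)) = TO n j := by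
  induction k, h using Nat.le_induction with
  | base =>
    rw [List.filter_eq_self]
    intro t ht
    rw [mem_TO] at ht
    simpa using ht.1
  | succ k hjk ih =>
    rw [← ih]
    unfold TO
    rw [List.range_succ, List.filter_append, List.filter_append]
    have h1 : ((([k] : List ℕ).filter (fun t => decide (t % 2 = 1 ∧ bl t = n))).filter
        (fun t => decide (t < j))) = [] := by
      rw [List.eq_nil_iff_forall_not_mem]
      intro t ht
      rw [List.mem_filter, List.mem_filter, List.mem_singleton] at ht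
      have h2 := ht.2
      rw [decide_eq_true_eq] at h2
      omega
    rw [h1, List.append_nil]

lemma TT_coh {n j k : ℕ} (h : j ≤ k) : (TT n k).filter (fun t => decide (t < j)) = TT n j := by
  have h1 : (TT n k).filter (fun t => decide (t < j)) =
      (List.range' n (k - n)).flatMap (fun m => TE m j ++ TO m j) := by
    unfold TT
    rw [List.filter_flatMap]
    congr 1
    funext m
    rw [List.filter_append, TE_coh h, TO_coh h]
  have h2 : List.range' n (k - n) = List.range' n (j - n) ++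
      List.range' (n + (j - n)) (k - n - (j - n)) := by
    rw [List.range'_append_1]
    congr 1
    omega
  have h3 : (List.range' (n + (j - n)) (k - n - (j - n))).flatMap
      (fun m => TE m j ++ TO m j) = [] := by
    rw [List.flatMap_eq_nil_iff]
    intro m hm
    rw [List.mem_range'_1] at hm
    rw [TE_nil (by omega), TO_nil (by omega)]
    rfl
  rw [h1, h2, List.flatMap_append, h3, List.append_nil]
  rfl

/-! ### the words -/

/-- the sign of the letter of index `t` -/
def sg (x : ℕ → ℕ → Bool) (t : ℕ) : Bool :=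
  if t % 2 = 0 then true else x (bl t) (Nat.unpair (t / 2)).2

/-- the letter of index `t` -/
def lt (x : ℕ → ℕ → Bool) (t : ℕ) : ℕ × Bool := (t, sg x t)

lemma sg_pair (x : ℕ → ℕ → Bool) (n i : ℕ) : sg x (2 * Nat.pair n i + 1) = x n i := by
  have h : (2 * Nat.pair n i + 1) / 2 = Nat.pair n i := by omega
  unfold sg
  rw [if_neg (by omega), bl_pair, h, Nat.unpair_pair]

lemma cut_map (x : ℕ → ℕ → Bool) (j : ℕ) (L : List ℕ) :
    cut j (L.map (lt x)) = (L.filter (fun t => decide (t < j))).map (lt x) := by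
  unfold cut
  rw [List.filter_map]
  rfl

/-- the word of the blocks `n, n + 1, …` -/
def R (x : ℕ → ℕ → Bool) (n : ℕ) : ℕ → Wd := fun k => (TT n k).map (lt x)

/-- the even part of a block -/
def WE (x : ℕ → ℕ → Bool) (n : ℕ) : ℕ → Wd := fun k => (TE n k).map (lt x)

/-- the odd part of a block -/
def WO (x : ℕ → ℕ → Bool) (n : ℕ) : ℕ → Wd := fun k => (TO n k).map (lt x)

lemma coh_R (x : ℕ → ℕ → Bool) (n : ℕ) : Coh (R x n) := by
  intro j k h
  unfold R
  rw [cut_map, TT_coh h]

lemma coh_WE (x : ℕ → ℕ → Bool) (n : ℕ) : Coh (WE x n) := by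
  intro j k h
  unfold WE
  rw [cut_map, TE_coh h]

lemma coh_WO (x : ℕ → ℕ → Bool) (n : ℕ) : Coh (WO x n) := by
  intro j k h
  unfold WO
  rw [cut_map, TO_coh h]

lemma R_rec (x : ℕ → ℕ → Bool) (n : ℕ) : R x n = cat (WE x n) (cat (WO x n) (R x (n + 1))) := by
  funext k
  unfold R WE WO cat
  rw [TT_rec, List.map_append, List.map_append]

lemma pure_WE (x : ℕ → ℕ → Bool) (n : ℕ) : Pure 0 (WE x n) := by
  intro k a ha
  unfold WE at ha
  rw [List.mem_map] at ha
  obtain ⟨t, ht, rfl⟩ := ha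
  rw [mem_TE] at ht
  show t % 2 = 0
  omega

lemma pure_WO (x : ℕ → ℕ → Bool) (n : ℕ) : Pure 1 (WO x n) := by
  intro k a ha
  unfold WO at ha
  rw [List.mem_map] at ha
  obtain ⟨t, ht, rfl⟩ := ha
  rw [mem_TO] at ht
  exact ht.2.1

/-- the element of the group given by the blocks `n, n + 1, …` -/
def hh (x : ℕ → ℕ → Bool) (n : ℕ) : HEG := ⟨Z (R x n), R x n, coh_R x n, rfl⟩

lemma step (x : ℕ → ℕ → Bool) (n : ℕ) : (hh x n)⁻¹ * hh x (n + 1) ∈ NGS := by
  let e : HEG := ⟨Z (WE x n), WE x n, coh_WE x n, rfl⟩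
  let o : HEG := ⟨Z (WO x n), WO x n, coh_WO x n, rfl⟩
  have he : e ∈ NGS := Subgroup.subset_normalClosure ⟨0, WE x n, coh_WE x n, pure_WE x n, rfl⟩
  have ho : o ∈ NGS := Subgroup.subset_normalClosure ⟨1, WO x n, coh_WO x n, pure_WO x n, rfl⟩
  have h1 : hh x n = e * (o * hh x (n + 1)) := by
    apply Subtype.ext
    show Z (R x n) = Z (WE x n) * (Z (WO x n) * Z (R x (n + 1)))
    rw [R_rec x n, Z_cat, Z_cat]
  have h2 : (hh x n)⁻¹ * hh x (n + 1) =
      (hh x (n + 1))⁻¹ * (o⁻¹ * e⁻¹) * ((hh x (n + 1))⁻¹)⁻¹ := by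
    rw [h1]
    group
  rw [h2]
  have hN : NGS.Normal := Subgroup.normalClosure_normal
  exact hN.conj_mem _ (NGS.mul_mem (NGS.inv_mem ho) (NGS.inv_mem he)) _

lemma chain (x : ℕ → ℕ → Bool) (n : ℕ) : (hh x 0)⁻¹ * hh x n ∈ NGS := by
  induction n with
  | zero =>
    rw [inv_mul_cancel]
    exact NGS.one_mem
  | succ n ih =>
    have h : (hh x 0)⁻¹ * hh x (n + 1) = ((hh x 0)⁻¹ * hh x n) * ((hh x n)⁻¹ * hh x (n + 1)) := by
      group
    rw [h]
    exact NGS.mul_mem ih (step x n)

lemma hh_eq {x y : ℕ → ℕ → Bool} {n : ℕ} (h : ∀ m, n ≤ m → x m = y m) : hh x n = hh y n := by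
  have h1 : R x n = R y n := by
    funext k
    unfold R
    refine List.map_congr_left fun t ht => ?_
    have h2 := (mem_TT ht).2
    unfold lt sg
    by_cases h0 : t % 2 = 0
    · rw [if_pos h0, if_pos h0]
    · rw [if_neg h0, if_neg h0, h _ (h2 (by omega))]
  unfold hh
  simp only [h1]

theorem fwd {x y : ℕ → ℕ → Bool} (h : E1 x y) : EqGS (hh x 0) (hh y 0) := by
  obtain ⟨n, hn⟩ := h
  have h1 := chain x n
  have h2 := chain y n
  rw [hh_eq hn] at h1
  have h3 : (hh x 0)⁻¹ * hh y 0 = ((hh x 0)⁻¹ * hh y n) * ((hh y 0)⁻¹ * hh y n)⁻¹ := by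
    group
  show (hh x 0)⁻¹ * hh y 0 ∈ NGS
  rw [h3]
  exact NGS.mul_mem h1 (NGS.inv_mem h2)

/-! ### reduced words -/

lemma reduce_eq {w : Wd} (h : (w.map Prod.fst).Nodup) : FreeGroup.reduce w = w := by
  apply FreeGroup.IsReduced.reduce_eq
  have h1 : w.Pairwise (fun a b => a.1 ≠ b.1) := List.pairwise_map.1 h
  exact (h1.isChain).imp (fun a b hab h' => absurd h' hab)

lemma map_fst (x : ℕ → ℕ → Bool) (L : List ℕ) : (L.map (lt x)).map Prod.fst = L := by
  rw [List.map_map]
  exact List.map_id L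

lemma R_nodup (x : ℕ → ℕ → Bool) (n k : ℕ) : ((R x n k).map Prod.fst).Nodup := by
  unfold R
  rw [map_fst]
  exact TT_nodup n k

lemma red_R (hR : S_RED) (x : ℕ → ℕ → Bool) (n : ℕ) : red (Z (R x n)) = R x n := by
  funext j
  have h1 := (hR (Z (R x n)) ⟨R x n, coh_R x n, rfl⟩).2.2 j
  obtain ⟨k, hk, hjk⟩ := (h1.and (eventually_ge_atTop j)).exists
  rw [← hk]
  show cut j (FreeGroup.mk (R x n k)).toWord = _
  rw [FreeGroup.toWord_mk, reduce_eq (R_nodup x n k), coh_R x n j k hjk]

lemma del_sublist (n : ℕ) (w : Wd) : (del n w).Sublist w := by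
  have h : (del n w).Sublist ((w.splitBy (fun a b => a.1 % 2 == b.1 % 2)).flatten) :=
    List.Sublist.flatten List.filter_sublist
  rwa [List.flatten_splitBy] at h

lemma DelI_spec (hD : S_DEL) (m : ℕ) (x : ℕ → ℕ → Bool) (j N : ℕ) :
    ∃ k, N ≤ k ∧ cut j (del m (R x 0 k)) = DelI m (R x 0) j := by
  obtain ⟨k, hk, hjk⟩ := (((hD m (R x 0) (coh_R x 0)).2 j).and (eventually_ge_atTop N)).exists
  exact ⟨k, hjk, hk⟩

lemma DelI_reduce (hD : S_DEL) (m : ℕ) (x : ℕ → ℕ → Bool) (j : ℕ) :
    FreeGroup.reduce (DelI m (R x 0) j) = DelI m (R x 0) j := by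
  obtain ⟨k, _, hk⟩ := DelI_spec hD m x j 0
  apply reduce_eq
  rw [← hk]
  have h1 : (cut j (del m (R x 0 k))).Sublist (R x 0 k) :=
    List.filter_sublist.trans (del_sublist m _)
  exact (h1.map Prod.fst).nodup (R_nodup x 0 k)

/-! ### the letters which survive -/

lemma del_append (n : ℕ) {A B : Wd}
    (h : ∀ a ∈ A.getLast?, ∀ b ∈ B.head?, a.1 % 2 ≠ b.1 % 2) :
    del n (A ++ B) = del n A ++ del n B := by
  unfold del
  rw [List.splitBy_append, List.filter_append, List.flatten_append]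
  intro a ha b hb
  exact beq_eq_false_iff_ne.2 (h a ha b hb)

lemma del_run (n : ℕ) {B : Wd} (h0 : B ≠ []) (h1 : ∀ a ∈ B, a.1 % 2 = 1) (h2 : ∀ a ∈ B, n ≤ a.1) :
    del n B = B := by
  unfold del
  rw [List.splitBy_of_isChain h0]
  · rw [List.filter_cons_of_pos, List.filter_nil, List.flatten_cons, List.flatten_nil,
      List.append_nil]
    rw [List.all_eq_true]
    intro a ha
    exact decide_eq_true (h2 a ha)
  · apply List.Pairwise.isChain
    apply List.pairwise_of_forall_mem_list
    intro a ha b hb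
    rw [h1 a ha, h1 b hb]
    rfl

lemma survive (hD : S_DEL) {m n t : ℕ} (hmn : m ≤ n) (ht1 : t % 2 = 1) (ht2 : bl t = n)
    (x : ℕ → ℕ → Bool) : lt x t ∈ DelI m (R x 0) (t + 1) := by
  obtain ⟨k, hk, hc⟩ := DelI_spec hD m x (t + 1) (t + 1)
  rw [← hc]
  have hbl := bl_le t
  obtain ⟨P, hP⟩ := TT_prefix n k
  have hTE : TE n k = [2 * n] := by
    unfold TE
    rw [if_pos (by omega)]
  have htO : t ∈ TO n k := mem_TO.2 ⟨by omega, ht1, ht2⟩
  have hB0 : (TO n k).map (lt x) ≠ [] := by
    intro h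
    rw [List.map_eq_nil_iff] at h
    rw [h] at htO
    exact List.not_mem_nil htO
  have hodd : ∀ a ∈ (TO n k).map (lt x), a.1 % 2 = 1 := by
    intro a ha
    rw [List.mem_map] at ha
    obtain ⟨s, hs, rfl⟩ := ha
    exact (mem_TO.1 hs).2.1
  have hbig : ∀ a ∈ (TO n k).map (lt x), m ≤ a.1 := by
    intro a ha
    rw [List.mem_map] at ha
    obtain ⟨s, hs, rfl⟩ := ha
    have h1 := (mem_TO.1 hs).2.2
    have h2 := bl_le s
    show m ≤ s
    omega
  have hW : R x 0 k = (P ++ [2 * n]).map (lt x) ++ ((TO n k).map (lt x) ++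
      (TT (n + 1) k).map (lt x)) := by
    unfold R
    rw [hP, TT_rec n k, hTE]
    simp only [List.map_append, List.append_assoc]
  have hdel : del m (R x 0 k) = del m ((P ++ [2 * n]).map (lt x)) ++ ((TO n k).map (lt x) ++
      del m ((TT (n + 1) k).map (lt x))) := by
    rw [hW, del_append, del_append, del_run m hB0 hodd hbig]
    · intro a ha b hb
      have h1 : a.1 % 2 = 1 := hodd a (List.mem_of_mem_getLast? ha)
      have h2 : b.1 % 2 = 0 := by
        rw [List.head?_map, Option.mem_def, Option.map_eq_some_iff] at hb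
        obtain ⟨s, hs, rfl⟩ := hb
        exact TT_head (n + 1) k s hs
      omega
    · intro a ha b hb
      have h1 : a.1 % 2 = 0 := by
        rw [List.getLast?_map, List.getLast?_append, Option.mem_def] at ha
        simp only [List.getLast?_singleton, Option.some_or, Option.map_some,
          Option.some.injEq] at ha
        rw [← ha]
        show (2 * n) % 2 = 0
        omega
      have h2 : b.1 % 2 = 1 := by
        rw [List.head?_append_of_ne_nil _ hB0] at hb
        exact hodd b (List.mem_of_mem_head? hb)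
      omega
  rw [hdel]
  unfold cut
  rw [List.mem_filter]
  refine ⟨?_, ?_⟩
  · rw [List.mem_append, List.mem_append]
    exact Or.inr (Or.inl (List.mem_map_of_mem htO))
  · exact decide_eq_true (Nat.lt_succ_self t)

theorem bwd (hR : S_RED) (hD : S_DEL) (hG : S_GSMAIN) {x y : ℕ → ℕ → Bool}
    (h : EqGS (hh x 0) (hh y 0)) : E1 x y := by
  have h1 := (hG (hh x 0) (hh y 0)).1 h
  obtain ⟨m, hm⟩ := h1.exists
  have h2 : Z (DelI m (R x 0)) = Z (DelI m (R y 0)) := by
    have h3 : dd m (Z (R x 0)) = dd m (Z (R y 0)) := hm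
    unfold dd at h3
    rw [red_R hR, red_R hR] at h3
    exact h3
  have h4 : ∀ j, DelI m (R x 0) j = DelI m (R y 0) j := by
    intro j
    have h5 : FreeGroup.mk (DelI m (R x 0) j) = FreeGroup.mk (DelI m (R y 0) j) := congrFun h2 j
    have h6 := FreeGroup.reduce.sound h5
    rwa [DelI_reduce hD, DelI_reduce hD] at h6
  refine ⟨m, fun n hn => ?_⟩
  funext i
  have h7 : lt x (2 * Nat.pair n i + 1) ∈ DelI m (R x 0) (2 * Nat.pair n i + 1 + 1) :=
    survive hD hn (by omega) (bl_pair n i) x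
  rw [h4] at h7
  obtain ⟨k, _, hk⟩ := DelI_spec hD m y (2 * Nat.pair n i + 1 + 1) 0
  rw [← hk] at h7
  have h8 : (cut (2 * Nat.pair n i + 1 + 1) (del m (R y 0 k))).Sublist (R y 0 k) :=
    List.filter_sublist.trans (del_sublist m _)
  have h9 := h8.subset h7
  unfold R at h9
  rw [List.mem_map] at h9
  obtain ⟨t, _, ht⟩ := h9
  have h10 : t = 2 * Nat.pair n i + 1 := congrArg Prod.fst ht
  have h11 : sg y t = sg x (2 * Nat.pair n i + 1) := congrArg Prod.snd ht
  rw [h10, sg_pair, sg_pair] at h11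
  exact h11.symm

/-! ### measurability -/

lemma meas_sg (t : ℕ) : Measurable (fun x : ℕ → ℕ → Bool => sg x t) := by
  by_cases h : t % 2 = 0
  · have h1 : (fun x : ℕ → ℕ → Bool => sg x t) = fun _ => true := by
      funext x
      unfold sg
      rw [if_pos h]
    rw [h1]
    exact measurable_const
  · have h1 : (fun x : ℕ → ℕ → Bool => sg x t) =
        fun x => x (bl t) (Nat.unpair (t / 2)).2 := by
      funext x
      unfold sg
      rw [if_neg h]
    rw [h1]
    exact (measurable_pi_apply _).comp (measurable_pi_apply _)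

lemma meas (n : ℕ) : Measurable (fun x : ℕ → ℕ → Bool => hh x n) := by
  refine Measurable.subtype_mk (measurable_pi_iff.2 fun k => ?_)
  let φ : (ℕ → ℕ → Bool) → (Fin k → Bool) := fun x t => sg x t
  have hφ : Measurable φ := measurable_pi_iff.2 fun t => meas_sg t
  let G : (Fin k → Bool) → FreeGroup ℕ := fun s =>
    FreeGroup.mk ((TT n k).map (fun t => (t, if h : t < k then s ⟨t, h⟩ else true)))
  have hG : Measurable G := measurable_of_finite G
  have h1 : (fun x : ℕ → ℕ → Bool => Z (R x n) k) = G ∘ φ := by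
    funext x
    show FreeGroup.mk ((TT n k).map (lt x)) = FreeGroup.mk ((TT n k).map (fun t =>
      (t, if h : t < k then φ x ⟨t, h⟩ else true)))
    congr 1
    refine List.map_congr_left fun t ht => ?_
    rw [dif_pos (mem_TT ht).1]
    rfl
  rw [h1]
  exact hG.comp hφ

end LBGS

theorem t_LBGS : S_RED → S_DEL → S_GSMAIN → S_LBGS := by
  intro hR hD hG
  exact ⟨fun x => LBGS.hh x 0, LBGS.meas 0, fun x y => ⟨LBGS.fwd, LBGS.bwd hR hD hG⟩⟩

end Pool.Agent.H742.GA
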