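import Pool.Agent.H742.GA.Stm

set_option autoImplicit false

open Filter

noncomputable section

namespace Pool.Agent.H742.GA

namespace LBHA

/-- the conjugating word of block `n`, with `K` letters -/
def V (x : ℕ → ℕ → Bool) (n K : ℕ) : Wd := (List.range K).map (fun i => (3 * Nat.pair n i + 2, x n i))

/-- the block `n` -/
def blk (x : ℕ → ℕ → Bool) (n K : ℕ) : Wd :=
  V x n K ++ [(3 * n, true), (3 * n + 1, false)] ++ FreeGroup.invRev (V x n K)

/-- the infinite word -/
def W (x : ℕ → ℕ → Bool) (k : ℕ) : Wd := cut k ((List.range k).flatMap (fun n => blk x n k))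

theorem cut_append (k : ℕ) (a b : Wd) : cut k (a ++ b) = cut k a ++ cut k b := by
  simp [cut, List.filter_append]

theorem cut_invRev (k : ℕ) (a : Wd) : cut k (FreeGroup.invRev a) = FreeGroup.invRev (cut k a) := by
  simp only [cut, FreeGroup.invRev, List.filter_reverse, List.filter_map]
  rfl

theorem cut_cut {j k : ℕ} (h : j ≤ k) (a : Wd) : cut j (cut k a) = cut j a := by
  simp only [cut, List.filter_filter]
  apply List.filter_congr
  intro b _
  by_cases h1 : b.1 < j
  · simp [h1, lt_of_lt_of_le h1 h]
  · simp [h1]

theorem cut_V (x : ℕ → ℕ → Bool) (n : ℕ) {j K : ℕ} (h : j ≤ K) : cut j (V x n K) = cut j (V x n j) := by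
  induction K, h using Nat.le_induction with
  | base => rfl
  | succ K hK ih =>
    have h1 : V x n (K + 1) = V x n K ++ [(3 * Nat.pair n K + 2, x n K)] := by
      simp [V, List.range_succ]
    rw [h1, cut_append, ih]
    have h2 : K ≤ Nat.pair n K := Nat.right_le_pair n K
    have h3 : ¬ (3 * Nat.pair n K + 2 < j) := by omega
    simp [cut, h3]

theorem cut_blk (x : ℕ → ℕ → Bool) (n : ℕ) {j K : ℕ} (h : j ≤ K) :
    cut j (blk x n K) = cut j (blk x n j) := by
  simp only [blk, cut_append, cut_invRev]
  rw [cut_V x n h]

theorem cut_V_nil (x : ℕ → ℕ → Bool) (n K : ℕ) {j : ℕ} (h : j ≤ n) : cut j (V x n K) = [] := by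
  simp only [cut, V, List.filter_map, List.map_eq_nil_iff, List.filter_eq_nil_iff]
  intro i _
  have h2 : n ≤ Nat.pair n i := Nat.left_le_pair n i
  simp only [Function.comp, decide_eq_true_eq]
  omega

theorem cut_blk_nil (x : ℕ → ℕ → Bool) (n K : ℕ) {j : ℕ} (h : j ≤ n) : cut j (blk x n K) = [] := by
  simp only [blk, cut_append, cut_invRev]
  rw [cut_V_nil x n K h]
  have h1 : ¬ (3 * n < j) := by omega
  have h2 : ¬ (3 * n + 1 < j) := by omega
  simp [cut, h1, h2, FreeGroup.invRev]

theorem cut_flat {j N : ℕ} (g : ℕ → Wd) (h : j ≤ N) (hg : ∀ n, j ≤ n → cut j (g n) = []) :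
    cut j ((List.range N).flatMap g) = cut j ((List.range j).flatMap g) := by
  induction N, h using Nat.le_induction with
  | base => rfl
  | succ K hK ih =>
    rw [List.range_succ, List.flatMap_append, cut_append, ih]
    simp [hg K hK]

theorem cut_flat_congr {j N : ℕ} (g g' : ℕ → Wd) (hg : ∀ n, cut j (g n) = cut j (g' n)) :
    cut j ((List.range N).flatMap g) = cut j ((List.range N).flatMap g') := by
  induction N with
  | zero => rfl
  | succ K ih =>
    rw [List.range_succ, List.flatMap_append, List.flatMap_append, cut_append, cut_append, ih]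
    simp [hg K]

theorem coh_W (x : ℕ → ℕ → Bool) : Coh (W x) := by
  intro j k h
  unfold W
  rw [cut_cut h, cut_flat_congr _ _ (fun n => cut_blk x n h),
    cut_flat _ h (fun n hn => cut_blk_nil x n j hn)]

/-- the reduction -/
def hh (x : ℕ → ℕ → Bool) : HEG := ⟨Z (W x), W x, coh_W x, rfl⟩

theorem W_congr {x y : ℕ → ℕ → Bool} {k : ℕ} (h : ∀ n < k, ∀ i < k, x n i = y n i) : W x k = W y k := by
  have hV : ∀ n < k, V x n k = V y n k := by
    intro n hn
    apply List.map_congr_left
    intro i hi
    rw [h n hn i (List.mem_range.1 hi)]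
  have hB : (List.range k).flatMap (fun n => blk x n k) = (List.range k).flatMap (fun n => blk y n k) := by
    apply List.flatMap_congr
    intro n hn
    simp only [blk]
    rw [hV n (List.mem_range.1 hn)]
  unfold W
  rw [hB]

theorem meas_hh : Measurable hh := by
  apply Measurable.subtype_mk
  rw [measurable_pi_iff]
  intro k
  let res : (ℕ → ℕ → Bool) → (Fin k → Fin k → Bool) := fun x n i => x n i
  let ext : (Fin k → Fin k → Bool) → (ℕ → ℕ → Bool) :=
    fun z n i => if h : n < k ∧ i < k then z ⟨n, h.1⟩ ⟨i, h.2⟩ else false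
  have h1 : (fun x => Z (W x) k) = (fun z => Z (W (ext z)) k) ∘ res := by
    funext x
    simp only [Z, Function.comp]
    rw [W_congr (x := x) (y := ext (res x))]
    intro n hn i hi
    simp [ext, res, hn, hi]
  rw [h1]
  apply Measurable.comp
  · exact Measurable.of_discrete
  · rw [measurable_pi_iff]
    intro n
    rw [measurable_pi_iff]
    intro i
    exact (measurable_pi_apply (i : ℕ)).comp (measurable_pi_apply (n : ℕ))

theorem mk_flat {G : Type} [Group G] (φ : FreeGroup ℕ →* G) (l : List ℕ) (g : ℕ → Wd) :
    φ (FreeGroup.mk (l.flatMap g)) = (l.map (fun n => φ (FreeGroup.mk (g n)))).prod := by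
  induction l with
  | nil => simp [← FreeGroup.one_eq_mk]
  | cons a l ih =>
    rw [List.flatMap_cons, ← FreeGroup.mul_mk, map_mul, ih]
    simp

theorem cut_flatMap (j : ℕ) (l : List ℕ) (g : ℕ → Wd) :
    cut j (l.flatMap g) = l.flatMap (fun n => cut j (g n)) := by
  induction l with
  | nil => rfl
  | cons a l ih => rw [List.flatMap_cons, cut_append, ih, List.flatMap_cons]

/-- the value of the block -/
def F {G : Type} [Group G] (φ : FreeGroup ℕ →* G) (x : ℕ → ℕ → Bool) (k n : ℕ) : G :=
  φ (FreeGroup.mk (cut k (V x n k))) * φ (FreeGroup.mk (cut k [(3 * n, true), (3 * n + 1, false)])) *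
    (φ (FreeGroup.mk (cut k (V x n k))))⁻¹

theorem phi_W {G : Type} [Group G] (φ : FreeGroup ℕ →* G) (x : ℕ → ℕ → Bool) (k : ℕ) :
    φ (FreeGroup.mk (W x k)) = ((List.range k).map (F φ x k)).prod := by
  unfold W
  rw [cut_flatMap, mk_flat]
  congr 1
  apply List.map_congr_left
  intro n _
  simp only [blk, cut_append, cut_invRev, F]
  rw [← FreeGroup.mul_mk, ← FreeGroup.mul_mk, ← FreeGroup.inv_mk, map_mul, map_mul, map_inv]

theorem mid {G : Type} [Group G] (φ : FreeGroup ℕ →* G) {k n : ℕ} (h : 3 * n + 1 < k) :
    φ (FreeGroup.mk (cut k [(3 * n, true), (3 * n + 1, false)])) =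
      φ (FreeGroup.of (3 * n)) * (φ (FreeGroup.of (3 * n + 1)))⁻¹ := by
  have h1 : 3 * n < k := by omega
  have h2 : cut k [(3 * n, true), (3 * n + 1, false)] = [(3 * n, true)] ++ [(3 * n + 1, false)] := by
    simp [cut, h, h1]
  have h3 : (FreeGroup.mk [(3 * n + 1, false)] : FreeGroup ℕ) = (FreeGroup.of (3 * n + 1))⁻¹ := rfl
  rw [h2, ← FreeGroup.mul_mk, map_mul, h3, map_inv]
  rfl

theorem mid_one {G : Type} [Group G] (φ : FreeGroup ℕ →* G) (k n : ℕ) (h : φ (FreeGroup.of (3 * n)) = 1)
    (h' : φ (FreeGroup.of (3 * n + 1)) = 1) :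
    φ (FreeGroup.mk (cut k [(3 * n, true), (3 * n + 1, false)])) = 1 := by
  have e1 : φ (FreeGroup.mk [(3 * n, true)]) = 1 := h
  have e2 : φ (FreeGroup.mk [(3 * n + 1, false)]) = 1 := by
    have : (FreeGroup.mk [(3 * n + 1, false)] : FreeGroup ℕ) = (FreeGroup.of (3 * n + 1))⁻¹ := rfl
    rw [this, map_inv, h', inv_one]
  by_cases h1 : 3 * n < k
  · by_cases h2 : 3 * n + 1 < k
    · rw [mid φ h2, h, h', inv_one, mul_one]
    · have h3 : cut k [(3 * n, true), (3 * n + 1, false)] = [(3 * n, true)] := by
        simp [cut, h1, h2]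
      rw [h3, e1]
  · have h2 : ¬ (3 * n + 1 < k) := by omega
    have h3 : cut k [(3 * n, true), (3 * n + 1, false)] = [] := by
      simp [cut, h1, h2]
    rw [h3, ← FreeGroup.one_eq_mk, map_one]

theorem prod_one {G : Type} [Group G] (f : ℕ → G) (k : ℕ) (h : ∀ n < k, f n = 1) :
    ((List.range k).map f).prod = 1 := by
  apply List.prod_eq_one
  intro a ha
  obtain ⟨n, hn, rfl⟩ := List.mem_map.1 ha
  exact h n (List.mem_range.1 hn)

theorem prod_single {G : Type} [Group G] (f : ℕ → G) (n k : ℕ) (hn : n < k) (h : ∀ n', n' ≠ n → f n' = 1) :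
    ((List.range k).map f).prod = f n := by
  induction k with
  | zero => omega
  | succ k ih =>
    rw [List.range_succ, List.map_append, List.prod_append]
    rcases Nat.lt_or_ge n k with h1 | h1
    · rw [ih h1]
      simp [h k (by omega)]
    · have h2 : n = k := by omega
      rw [prod_one f k (fun n' hn' => h n' (by omega))]
      simp [h2]

end LBHA

open LBHA

theorem t_LBHA : S_HAMAIN → S_LBHA := by
  intro HM
  refine ⟨hh, meas_hh, fun x y => ?_⟩
  unfold EqHA
  rw [HM]
  constructor
  · rintro ⟨n0, h0⟩
    filter_upwards [eventually_ge_atTop (3 * n0 + 1)] with m hm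
    funext k
    by_cases hk : m < k
    · simp only [Q, hk, if_true, hh, Z]
      rw [phi_W, phi_W]
      congr 1
      apply List.map_congr_left
      intro n _
      by_cases hn : n < n0
      · have hmid : FreeGroup.map (fun i => max i m)
            (FreeGroup.mk (cut k [(3 * n, true), (3 * n + 1, false)])) = 1 := by
          rw [mid _ (by omega), FreeGroup.map.of, FreeGroup.map.of]
          have e1 : max (3 * n) m = m := by omega
          have e2 : max (3 * n + 1) m = m := by omega
          rw [e1, e2, mul_inv_cancel]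
        simp only [F]
        rw [hmid, mul_one, mul_one, mul_inv_cancel, mul_inv_cancel]
      · have e : V x n k = V y n k := by
          unfold V
          rw [h0 n (by omega)]
        simp only [F]
        rw [e]
    · simp [Q, hk]
  · intro H
    obtain ⟨m, hm⟩ := H.exists
    refine ⟨m + 1, fun n hn => ?_⟩
    funext i
    have hp : n ≤ Nat.pair n i := Nat.left_le_pair n i
    have hp2 : i ≤ Nat.pair n i := Nat.right_le_pair n i
    have h1 := congrFun hm (3 * Nat.pair n i + 3)
    have hk : m < 3 * Nat.pair n i + 3 := by omega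
    simp only [Q, hk, if_true, hh, Z] at h1
    set a : Equiv.Perm (Fin 3) := Equiv.swap 0 1 with ha
    set b : Equiv.Perm (Fin 3) := finRotate 3 with hb
    set f : ℕ → Equiv.Perm (Fin 3) := fun j => if j = 3 * n then a else
      if j = 3 * Nat.pair n i + 2 then b else 1 with hf
    set φ : FreeGroup ℕ →* Equiv.Perm (Fin 3) := FreeGroup.lift f with hφ
    have hcomp : φ.comp (FreeGroup.map (fun i => max i m)) = φ := by
      apply FreeGroup.ext_hom
      intro j
      simp only [MonoidHom.comp_apply, FreeGroup.map.of, hφ, FreeGroup.lift_apply_of]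
      rcases Nat.le_total j m with h2 | h2
      · rw [max_eq_right h2]
        have e1 : ¬ m = 3 * n := by omega
        have e2 : ¬ j = 3 * n := by omega
        have e3 : ¬ m = 3 * Nat.pair n i + 2 := by omega
        have e4 : ¬ j = 3 * Nat.pair n i + 2 := by omega
        simp only [hf, e1, e2, e3, e4, if_false]
      · rw [max_eq_left h2]
    have h2 := congrArg φ h1
    have h3 : ∀ u, φ (FreeGroup.map (fun i => max i m) u) = φ u := fun u => DFunLike.congr_fun hcomp u
    rw [h3, h3, phi_W, phi_W] at h2
    have hval : ∀ z : ℕ → ℕ → Bool, ((List.range (3 * Nat.pair n i + 3)).map (F φ z (3 * Nat.pair n i + 3))).prod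
        = (if z n i then b else b⁻¹) * a * (if z n i then b else b⁻¹)⁻¹ := by
      intro z
      rw [prod_single _ n _ (by omega)]
      · have hA : φ (FreeGroup.mk (cut (3 * Nat.pair n i + 3) (V z n (3 * Nat.pair n i + 3)))) =
            (if z n i then b else b⁻¹) := by
          have e : V z n (3 * Nat.pair n i + 3) = (List.range (3 * Nat.pair n i + 3)).flatMap
              (fun i' => [(3 * Nat.pair n i' + 2, z n i')]) := by
            exact List.map_eq_flatMap
          rw [e, cut_flatMap, mk_flat, prod_single _ i _ (by omega)]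
          · have e1 : cut (3 * Nat.pair n i + 3) [(3 * Nat.pair n i + 2, z n i)] =
                [(3 * Nat.pair n i + 2, z n i)] := by
              simp [cut]
            rw [e1]
            have e2 : ¬ (3 * Nat.pair n i + 2 = 3 * n) := by omega
            cases hz : z n i
            · have e3 : (FreeGroup.mk [(3 * Nat.pair n i + 2, false)] : FreeGroup ℕ) =
                  (FreeGroup.of (3 * Nat.pair n i + 2))⁻¹ := rfl
              rw [e3, map_inv, hφ, FreeGroup.lift_apply_of]
              simp [hf, e2]
            · have e3 : (FreeGroup.mk [(3 * Nat.pair n i + 2, true)] : FreeGroup ℕ) =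
                  (FreeGroup.of (3 * Nat.pair n i + 2)) := rfl
              rw [e3, hφ, FreeGroup.lift_apply_of]
              simp [hf, e2]
          · intro i' hi'
            have e2 : ¬ (3 * Nat.pair n i' + 2 = 3 * n) := by omega
            have e4 : ¬ (3 * Nat.pair n i' + 2 = 3 * Nat.pair n i + 2) := by
              intro h
              have h5 : Nat.pair n i' = Nat.pair n i := by omega
              exact hi' (Nat.pair_eq_pair.1 h5).2
            have e5 : φ (FreeGroup.of (3 * Nat.pair n i' + 2)) = 1 := by
              rw [hφ, FreeGroup.lift_apply_of]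
              simp only [hf, e2, e4, if_false]
            by_cases h6 : 3 * Nat.pair n i' + 2 < 3 * Nat.pair n i + 3
            · have e1 : cut (3 * Nat.pair n i + 3) [(3 * Nat.pair n i' + 2, z n i')] =
                  [(3 * Nat.pair n i' + 2, z n i')] := by
                simp [cut, h6]
              rw [e1]
              cases hz : z n i'
              · have e3 : (FreeGroup.mk [(3 * Nat.pair n i' + 2, false)] : FreeGroup ℕ) =
                    (FreeGroup.of (3 * Nat.pair n i' + 2))⁻¹ := rfl
                rw [e3, map_inv, e5, inv_one]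
              · exact e5
            · have e1 : cut (3 * Nat.pair n i + 3) [(3 * Nat.pair n i' + 2, z n i')] = [] := by
                simp [cut, h6]
              rw [e1, ← FreeGroup.one_eq_mk, map_one]
        have hB : φ (FreeGroup.mk (cut (3 * Nat.pair n i + 3) [(3 * n, true), (3 * n + 1, false)])) = a := by
          rw [mid φ (by omega), hφ, FreeGroup.lift_apply_of, FreeGroup.lift_apply_of]
          have e1 : ¬ (3 * n + 1 = 3 * n) := by omega
          have e2 : ¬ (3 * n + 1 = 3 * Nat.pair n i + 2) := by omega
          simp only [hf, e1, e2, if_false, if_true, inv_one, mul_one]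
        simp only [F]
        rw [hA, hB]
      · intro n' hn'
        have e1 : ¬ (3 * n' = 3 * n) := by omega
        have e2 : ¬ (3 * n' = 3 * Nat.pair n i + 2) := by omega
        have e3 : ¬ (3 * n' + 1 = 3 * n) := by omega
        have e4 : ¬ (3 * n' + 1 = 3 * Nat.pair n i + 2) := by omega
        simp only [F]
        rw [mid_one φ _ n' (by rw [hφ, FreeGroup.lift_apply_of]; simp only [hf, e1, e2, if_false])
          (by rw [hφ, FreeGroup.lift_apply_of]; simp only [hf, e3, e4, if_false])]
        simp
    rw [hval, hval] at h2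
    cases hx : x n i <;> cases hy : y n i
    · rfl
    · exfalso
      simp only [hx, hy, if_true, ha, hb] at h2
      revert h2
      decide
    · exfalso
      simp only [hx, hy, if_true, ha, hb] at h2
      revert h2
      decide
    · rfl

end Pool.Agent.H742.GA
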