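import Pool.Agent.H742.GA.Stm

set_option autoImplicit false

/-!
Measurability and coding (project GA of helper742), proved by helper34.
-/

open Filter

noncomputable section

namespace Pool.Agent.H742.GA

namespace MEAS

/-- all level sets are measurable -/
def MW {X : Type} [MeasurableSpace X] (f : X → Wd) : Prop := ∀ w, MeasurableSet {x | f x = w}

theorem mw_meas {X Y : Type} [MeasurableSpace X] [MeasurableSpace Y] {f : X → Wd} (hf : MW f)
    (g : Wd → Y) : Measurable (fun x => g (f x)) := by
  intro S _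
  have e : (fun x => g (f x)) ⁻¹' S = ⋃ w : Wd, ⋃ (_ : g w ∈ S), {x | f x = w} := by
    ext x
    simp
  rw [e]
  exact MeasurableSet.iUnion fun w => MeasurableSet.iUnion fun _ => hf w

theorem mw_comp {X : Type} [MeasurableSpace X] {f : X → Wd} (hf : MW f) (g : Wd → Wd) :
    MW (fun x => g (f x)) := by
  intro w
  have e : {x | g (f x) = w} = ⋃ v : Wd, ⋃ (_ : g v = w), {x | f x = v} := by
    ext x
    simp
  rw [e]
  exact MeasurableSet.iUnion fun v => MeasurableSet.iUnion fun _ => hf v

theorem mw_ev {X : Type} [MeasurableSpace X] {s : ℕ → X → Wd} (hs : ∀ k, MW (s k)) :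
    MW (fun x => ev (fun k => s k x)) := by
  have h1 : ∀ w : Wd, MeasurableSet {x | ∀ᶠ k in atTop, s k x = w} := by
    intro w
    have e : {x | ∀ᶠ k in atTop, s k x = w} = ⋃ K : ℕ, ⋂ k : ℕ, ⋂ (_ : K ≤ k), {x | s k x = w} := by
      ext x
      simp [Filter.eventually_atTop]
    rw [e]
    exact MeasurableSet.iUnion fun K => MeasurableSet.iInter fun k =>
      MeasurableSet.iInter fun _ => hs k w
  have h2 : ∀ (x : X) (w : Wd), (∀ᶠ k in atTop, s k x = w) → ev (fun k => s k x) = w := by
    intro x w hw
    have hex : ∃ w, ∀ᶠ k in atTop, s k x = w := ⟨w, hw⟩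
    unfold ev
    rw [dif_pos hex]
    obtain ⟨k, hk1, hk2⟩ := ((Classical.choose_spec hex).and hw).exists
    rw [← hk1, hk2]
  have h3 : ∀ x : X, (¬ ∃ w, ∀ᶠ k in atTop, s k x = w) → ev (fun k => s k x) = [] := by
    intro x hx
    unfold ev
    rw [dif_neg hx]
  intro w
  by_cases hw : w = []
  · have e : {x | ev (fun k => s k x) = w} = {x | ∀ᶠ k in atTop, s k x = w} ∪
        (⋃ v : Wd, {x | ∀ᶠ k in atTop, s k x = v})ᶜ := by
      ext x
      simp only [Set.mem_union, Set.mem_compl_iff, Set.mem_iUnion]
      constructor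
      · intro hx
        by_cases hex : ∃ v, ∀ᶠ k in atTop, s k x = v
        · obtain ⟨v, hv⟩ := hex
          left
          have hvw : v = w := (h2 x v hv).symm.trans hx
          rw [hvw] at hv
          exact hv
        · right
          exact hex
      · rintro (hx | hx)
        · exact h2 x w hx
        · exact (h3 x hx).trans hw.symm
    rw [e]
    exact (h1 w).union (MeasurableSet.iUnion h1).compl
  · have e : {x | ev (fun k => s k x) = w} = {x | ∀ᶠ k in atTop, s k x = w} := by
      ext x
      constructor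
      · intro hx
        by_cases hex : ∃ v, ∀ᶠ k in atTop, s k x = v
        · obtain ⟨v, hv⟩ := hex
          have hvw : v = w := (h2 x v hv).symm.trans hx
          rw [hvw] at hv
          exact hv
        · exact absurd ((h3 x hex).symm.trans hx).symm hw
      · intro hx
        exact h2 x w hx
    rw [e]
    exact h1 w

theorem mw_coord (g : FreeGroup ℕ → Wd) (k : ℕ) :
    MW (fun u : ℕ → FreeGroup ℕ => g (u k)) := by
  intro w
  have h : MeasurableSet {a : FreeGroup ℕ | g a = w} := trivial
  have hm : Measurable (fun u : ℕ → FreeGroup ℕ => u k) := measurable_pi_apply k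
  exact hm h

theorem meas_coord {Y : Type} [MeasurableSpace Y] (g : FreeGroup ℕ → Y) (k : ℕ) :
    Measurable (fun u : ℕ → FreeGroup ℕ => g (u k)) := by
  intro S _
  have h : MeasurableSet {a : FreeGroup ℕ | g a ∈ S} := trivial
  have hm : Measurable (fun u : ℕ → FreeGroup ℕ => u k) := measurable_pi_apply k
  exact hm h

theorem mw_red (k : ℕ) : MW (fun u : ℕ → FreeGroup ℕ => red u k) :=
  mw_ev (s := fun k' (u : ℕ → FreeGroup ℕ) => cut k (u k').toWord)
    fun k' => mw_coord (fun a => cut k a.toWord) k'

theorem mw_del (n j : ℕ) : MW (fun u : ℕ → FreeGroup ℕ => DelI n (red u) j) :=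
  mw_ev (s := fun k (u : ℕ → FreeGroup ℕ) => cut j (del n (red u k)))
    fun k => mw_comp (mw_red k) (fun w => cut j (del n w))

end MEAS

open MEAS

theorem t_MEAS : S_MEAS := by
  intro n
  rw [measurable_pi_iff]
  intro j
  exact mw_meas (mw_del n j) (fun w => (FreeGroup.mk w : FreeGroup ℕ))

theorem t_QMEAS : S_QMEAS := by
  intro m
  rw [measurable_pi_iff]
  intro k
  exact meas_coord (fun a => if m < k then FreeGroup.map (fun i => max i m) a else 1) k

theorem t_CODE : S_CODE := by
  have hc : Countable (FreeGroup ℕ) := FreeGroup.toWord_injective.countable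
  obtain ⟨enc, henc⟩ := exists_injective_nat (FreeGroup ℕ)
  refine ⟨fun x n => decide (enc (x n.unpair.1) = n.unpair.2), ?_, ?_⟩
  · rw [measurable_pi_iff]
    intro n
    exact meas_coord (fun a => decide (enc a = n.unpair.2)) n.unpair.1
  · intro x y hxy
    funext i
    have h := congrFun hxy (Nat.pair i (enc (x i)))
    simp only [Nat.unpair_pair] at h
    have h2 : decide (enc (y i) = enc (x i)) = true := by
      rw [← h]
      simp
    exact (henc (of_decide_eq_true h2)).symm

theorem t_TRANS : S_TRANS := by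
  intro X Y T _ _ _ E F G h1 h2
  obtain ⟨f, hf, hf'⟩ := h1
  obtain ⟨g, hg, hg'⟩ := h2
  exact ⟨fun x => g (f x), hg.comp hf, fun x x' => (hf' x x').trans (hg' _ _)⟩

theorem t_UBGS : S_GSMAIN → S_MEAS → S_CODE → S_UBGS := by
  intro hG hM hC
  obtain ⟨c, hc, hci⟩ := hC
  refine ⟨fun u n => c (dd n u.1), ?_, fun u v => ?_⟩
  · rw [measurable_pi_iff]
    intro n
    exact hc.comp ((hM n).comp measurable_subtype_coe)
  · refine (hG u v).trans ?_
    rw [Filter.eventually_atTop]
    constructor
    · rintro ⟨N, hN⟩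
      exact ⟨N, fun m hm => congrArg c (hN m hm)⟩
    · rintro ⟨N, hN⟩
      exact ⟨N, fun m hm => hci (hN m hm)⟩

theorem t_UBHA : S_HAMAIN → S_QMEAS → S_CODE → S_UBHA := by
  intro hG hM hC
  obtain ⟨c, hc, hci⟩ := hC
  refine ⟨fun u n => c (Q n u.1), ?_, fun u v => ?_⟩
  · rw [measurable_pi_iff]
    intro n
    exact hc.comp ((hM n).comp measurable_subtype_coe)
  · refine (hG u v).trans ?_
    rw [Filter.eventually_atTop]
    constructor
    · rintro ⟨N, hN⟩
      exact ⟨N, fun m hm => congrArg c (hN m hm)⟩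
    · rintro ⟨N, hN⟩
      exact ⟨N, fun m hm => hci (hN m hm)⟩

end Pool.Agent.H742.GA
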