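import Mathlib

/-!
# The Hawaiian earring group modulo the kernels of the Griffiths space and of the harmonic
archipelago: definitions and the statements of the lemmas
-/

set_option autoImplicit false

open Filter

noncomputable section

namespace Pool.Agent.H742.GA

/-- Finite words in the letters `x i` (`(i, true)`) and `(x i)⁻¹` (`(i, false)`), `i = 0, 1, …`. -/
abbrev Wd := List (ℕ × Bool)

/-- Delete the letters of index at least `k`. -/
def cut (k : ℕ) (w : Wd) : Wd := w.filter (fun a => decide (a.1 < k))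

/-- Infinite words with finitely many letters of each index, given by the sequence of their finite
parts: `U k` consists of the letters of index `< k`. -/
def Coh (U : ℕ → Wd) : Prop := ∀ j k, j ≤ k → cut j (U k) = U j

/-- The element of the inverse limit of free groups given by a word. -/
def Z (U : ℕ → Wd) : ℕ → FreeGroup ℕ := fun k => FreeGroup.mk (U k)

/-- Concatenation of infinite words. -/
def cat (U V : ℕ → Wd) : ℕ → Wd := fun k => U k ++ V k

/-- The inverse word. -/
def inv (U : ℕ → Wd) : ℕ → Wd := fun k => FreeGroup.invRev (U k)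

theorem coh_nil : Coh (fun _ => []) := fun _ _ _ => rfl

theorem coh_cat {U V : ℕ → Wd} (hU : Coh U) (hV : Coh V) : Coh (cat U V) := by
  intro j k h
  have h1 := hU j k h
  have h2 := hV j k h
  simp only [cut, cat, List.filter_append] at *
  rw [h1, h2]

theorem coh_inv {U : ℕ → Wd} (hU : Coh U) : Coh (inv U) := by
  intro j k h
  have h1 := hU j k h
  simp only [inv]
  rw [← h1]
  simp only [cut, FreeGroup.invRev, List.filter_reverse, List.filter_map]
  rfl

theorem Z_nil : Z (fun _ => []) = 1 := rfl

theorem Z_cat (U V : ℕ → Wd) : Z (cat U V) = Z U * Z V := by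
  funext k; simp [Z, cat, FreeGroup.mul_mk]

theorem Z_inv (U : ℕ → Wd) : Z (inv U) = (Z U)⁻¹ := by
  funext k; simp [Z, inv, FreeGroup.inv_mk]

/-- The Hawaiian earring group: the elements of the inverse limit of the free groups on
`x 0, …, x (k - 1)` which are given by an infinite word. -/
def HEG : Subgroup (ℕ → FreeGroup ℕ) where
  carrier := {u | ∃ U, Coh U ∧ Z U = u}
  mul_mem' := by
    rintro _ _ ⟨U, hU, rfl⟩ ⟨V, hV, rfl⟩
    exact ⟨cat U V, coh_cat hU hV, Z_cat U V⟩
  one_mem' := ⟨fun _ => [], coh_nil, Z_nil⟩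
  inv_mem' := by
    rintro _ ⟨U, hU, rfl⟩
    exact ⟨inv U, coh_inv hU, Z_inv U⟩

/-- All letters of the word have index `b` modulo 2. -/
def Pure (b : ℕ) (U : ℕ → Wd) : Prop := ∀ k, ∀ a ∈ U k, a.1 % 2 = b

/-- The kernel of the map onto the fundamental group of the Griffiths space: the normal closure in
the Hawaiian earring group of the elements given by words in the letters of even index, and of
those given by words in the letters of odd index. -/
def NGS : Subgroup HEG :=
  Subgroup.normalClosure {v : HEG | ∃ (b : ℕ) (V : ℕ → Wd), Coh V ∧ Pure b V ∧ Z V = v.1}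

/-- the letter `x i` as a word -/
def letter (i : ℕ) (s : Bool) : ℕ → Wd := fun k => if i < k then [(i, s)] else []

/-- The kernel of the map onto the fundamental group of the harmonic archipelago: the normal closure
in the Hawaiian earring group of the elements `x i * (x (i + 1))⁻¹`. -/
def NHA : Subgroup HEG :=
  Subgroup.normalClosure {v : HEG | ∃ i : ℕ, v.1 = Z (letter i true) * (Z (letter (i + 1) true))⁻¹}

/-- The σ-algebra of all subsets of the (countable) free group. -/
instance instFG : MeasurableSpace (FreeGroup ℕ) := ⊤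

/-- `E ≤_B F` -/
def BRed {X Y : Type} [MeasurableSpace X] [MeasurableSpace Y] (E : X → X → Prop)
    (F : Y → Y → Prop) : Prop :=
  ∃ h : X → Y, Measurable h ∧ ∀ x x', E x x' ↔ F (h x) (h x')

/-- `E₁`: eventual equality of sequences of points of the Cantor space. -/
def E1 (x y : ℕ → ℕ → Bool) : Prop := ∃ n, ∀ m, n ≤ m → x m = y m

/-- The relation whose classes are the elements of the fundamental group of the Griffiths space. -/
def EqGS (u v : HEG) : Prop := u⁻¹ * v ∈ NGS

/-- The relation whose classes are the elements of the fundamental group of the archipelago. -/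
def EqHA (u v : HEG) : Prop := u⁻¹ * v ∈ NHA

/-! ## auxiliary notions -/

open Classical in
/-- the eventual value of a sequence of words (empty if there is none) -/
def ev (s : ℕ → Wd) : Wd :=
  if h : ∃ w, ∀ᶠ k in atTop, s k = w then Classical.choose h else []

/-- the reduced infinite word of `u` -/
def red (u : ℕ → FreeGroup ℕ) : ℕ → Wd := fun j => ev (fun k => cut j (u k).toWord)

/-- delete from a finite word the maximal runs of letters of the same parity which contain a letter
of index `< n` -/
def del (n : ℕ) (w : Wd) : Wd :=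
  ((w.splitBy (fun a b => a.1 % 2 == b.1 % 2)).filter
    (fun r => r.all (fun a => decide (n ≤ a.1)))).flatten

/-- the same for infinite words -/
def DelI (n : ℕ) (U : ℕ → Wd) : ℕ → Wd := fun j => ev (fun k => cut j (del n (U k)))

/-- the invariants for the Griffiths space -/
def dd (n : ℕ) (u : ℕ → FreeGroup ℕ) : ℕ → FreeGroup ℕ := Z (DelI n (red u))

/-- replace the letters of index `< m` by the letter of index `m` -/
def Q (m : ℕ) (u : ℕ → FreeGroup ℕ) : ℕ → FreeGroup ℕ :=
  fun k => if m < k then FreeGroup.map (fun i => max i m) (u k) else 1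

/-! ## statements -/

def S_RED : Prop := ∀ u ∈ HEG, Coh (red u) ∧ Z (red u) = u ∧
  ∀ j, ∀ᶠ k in atTop, cut j (u k).toWord = red u j

def S_DEL : Prop := ∀ (n : ℕ) (U : ℕ → Wd), Coh U → Coh (DelI n U) ∧
  ∀ j, ∀ᶠ k in atTop, cut j (del n (U k)) = DelI n U j

def S_CAT : Prop := ∀ A C : ℕ → Wd, Coh A → Coh C →
  ∀ᶠ n in atTop, DelI n (cat A C) = cat (DelI n A) (DelI n C)

def S_INV : Prop := ∀ (n : ℕ) (U : ℕ → Wd), Coh U → DelI n (inv U) = inv (DelI n U)

def S_PUREDEL : Prop := ∀ (b : ℕ) (V : ℕ → Wd), Coh V → Pure b V →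
  ∀ᶠ n in atTop, DelI n V = fun _ => []

def S_PURERED : Prop := ∀ (b : ℕ) (V : ℕ → Wd), Coh V → Pure b V → Pure b (red (Z V))

def S_CANC : Prop := ∀ u ∈ HEG, ∀ v ∈ HEG, ∃ A B C : ℕ → Wd, Coh A ∧ Coh B ∧ Coh C ∧
  red u = cat A C ∧ red v = cat (inv C) B ∧ red (u * v) = cat A B

/-- deleting the big runs does not change the class modulo `NGS` -/
def S_KILL : Prop := ∀ (n : ℕ) (U : ℕ → Wd), Coh U →
  ∀ u v : HEG, Z U = u.1 → Z (DelI n U) = v.1 → u⁻¹ * v ∈ NGS

/-- asymptotic multiplicativity -/
def S_AMUL : Prop := ∀ u ∈ HEG, ∀ v ∈ HEG, ∀ᶠ n in atTop, dd n (u * v) = dd n u * dd n v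

def S_GSMAIN : Prop := ∀ u v : HEG, u⁻¹ * v ∈ NGS ↔ ∀ᶠ n in atTop, dd n u.1 = dd n v.1

def S_MEAS : Prop := ∀ n, Measurable (dd n)

def S_QMEAS : Prop := ∀ m, Measurable (Q m)

/-- replacing the letters of index `< m` by `x m` does not change the class modulo `NHA` -/
def S_QKILL : Prop := ∀ (m : ℕ) (u : HEG), ∃ v : HEG, v.1 = Q m u.1 ∧ u⁻¹ * v ∈ NHA

def S_HAMAIN : Prop := ∀ u v : HEG, u⁻¹ * v ∈ NHA ↔ ∀ᶠ m in atTop, Q m u.1 = Q m v.1

def S_CODE : Prop := ∃ c : (ℕ → FreeGroup ℕ) → (ℕ → Bool), Measurable c ∧ Function.Injective c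

def S_UBGS : Prop := BRed EqGS E1
def S_UBHA : Prop := BRed EqHA E1
def S_LBGS : Prop := BRed E1 EqGS
def S_LBHA : Prop := BRed E1 EqHA

/-- Borel reductions compose -/
def S_TRANS : Prop := ∀ {X Y T : Type} [MeasurableSpace X] [MeasurableSpace Y] [MeasurableSpace T]
  (E : X → X → Prop) (F : Y → Y → Prop) (G : T → T → Prop), BRed E F → BRed F G → BRed E G

end Pool.Agent.H742.GA
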