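import Mathlib
import Pool.Agent.H742.GA.Stm

/-!
# Reduced infinite words
-/

set_option autoImplicit false

open Filter

noncomputable section

namespace Pool.Agent.H742.GA

namespace RED

/-- the map killing the letters of index at least `j` -/
def kl (j : ℕ) : FreeGroup ℕ →* FreeGroup ℕ :=
  FreeGroup.lift (fun i => if i < j then FreeGroup.of i else 1)

theorem cut_nil (j : ℕ) : cut j [] = [] := rfl

theorem cut_cons_pos {j : ℕ} {a : ℕ × Bool} (h : a.1 < j) (w : Wd) :
    cut j (a :: w) = a :: cut j w := by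
  unfold cut
  rw [List.filter_cons_of_pos (by simpa using h)]

theorem cut_cons_neg {j : ℕ} {a : ℕ × Bool} (h : ¬ a.1 < j) (w : Wd) :
    cut j (a :: w) = cut j w := by
  unfold cut
  rw [List.filter_cons_of_neg (by simpa using h)]

theorem mk_cons (a : ℕ × Bool) (w : Wd) :
    (FreeGroup.mk (a :: w) : FreeGroup ℕ) = FreeGroup.mk [a] * FreeGroup.mk w := by
  rw [FreeGroup.mul_mk]
  rfl

theorem kl_single (j : ℕ) (a : ℕ × Bool) :
    kl j (FreeGroup.mk [a]) = if a.1 < j then FreeGroup.mk [a] else 1 := by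
  obtain ⟨i, s⟩ := a
  unfold kl
  cases s
  · have h : (FreeGroup.mk [(i, false)] : FreeGroup ℕ) = (FreeGroup.of i)⁻¹ := by
      rw [FreeGroup.of, FreeGroup.inv_mk]
      rfl
    rw [h, map_inv, FreeGroup.lift_apply_of]
    by_cases hi : i < j
    · rw [if_pos hi, if_pos hi]
    · rw [if_neg hi, if_neg hi, inv_one]
  · have h : (FreeGroup.mk [(i, true)] : FreeGroup ℕ) = FreeGroup.of i := rfl
    rw [h, FreeGroup.lift_apply_of]

theorem kl_mk (j : ℕ) (w : Wd) : kl j (FreeGroup.mk w) = FreeGroup.mk (cut j w) := by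
  induction w with
  | nil =>
    rw [cut_nil]
    exact map_one (kl j)
  | cons a w ih =>
    rw [mk_cons, map_mul, ih, kl_single]
    by_cases h : a.1 < j
    · rw [if_pos h, cut_cons_pos h, mk_cons a (cut j w)]
    · rw [if_neg h, cut_cons_neg h, one_mul]

theorem cut_cut {i j : ℕ} (h : i ≤ j) (w : Wd) : cut i (cut j w) = cut i w := by
  unfold cut
  rw [List.filter_filter]
  apply List.filter_congr
  intro a _
  by_cases h1 : a.1 < i
  · have h2 : a.1 < j := lt_of_lt_of_le h1 h
    simp [h1, h2]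
  · simp [h1]

theorem cut_sub (j : ℕ) {w w' : Wd} (h : w.Sublist w') : (cut j w).Sublist (cut j w') :=
  h.filter _

theorem toWord_sub (w : Wd) : (FreeGroup.toWord (FreeGroup.mk w)).Sublist w := by
  rw [FreeGroup.toWord_mk]
  exact FreeGroup.Red.sublist FreeGroup.reduce.red

theorem ev_eq {s : ℕ → Wd} {w : Wd} (h : ∀ᶠ k in atTop, s k = w) : ev s = w := by
  have hex : ∃ w, ∀ᶠ k in atTop, s k = w := ⟨w, h⟩
  unfold ev
  rw [dif_pos hex]
  obtain ⟨k, h1, h2⟩ := (hex.choose_spec.and h).exists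
  exact h1.symm.trans h2

section
variable {U : ℕ → Wd} (hU : Coh U)
include hU

theorem kl_Z {j k : ℕ} (h : j ≤ k) : kl j (Z U k) = Z U j := by
  unfold Z
  rw [kl_mk, hU j k h]

theorem mk_cut {j k : ℕ} (h : j ≤ k) : FreeGroup.mk (cut j (Z U k).toWord) = Z U j := by
  rw [← kl_mk, FreeGroup.mk_toWord, kl_Z hU h]

theorem step {j k : ℕ} (h : j ≤ k) :
    (cut j (Z U k).toWord).Sublist (cut j (Z U (k + 1)).toWord) := by
  have h1 : (Z U k).toWord.Sublist (cut k (Z U (k + 1)).toWord) := by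
    have h2 := toWord_sub (cut k (Z U (k + 1)).toWord)
    rwa [mk_cut hU (Nat.le_succ k)] at h2
  have h3 := cut_sub j h1
  rwa [cut_cut h] at h3

theorem chain {j k l : ℕ} (h : j ≤ k) (hkl : k ≤ l) :
    (cut j (Z U k).toWord).Sublist (cut j (Z U l).toWord) := by
  induction l, hkl using Nat.le_induction with
  | base => exact List.Sublist.refl _
  | succ l hl ih => exact ih.trans (step hU (h.trans hl))

theorem bound {j k : ℕ} (h : j ≤ k) : (cut j (Z U k).toWord).length ≤ (U j).length := by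
  have h1 := cut_sub j (toWord_sub (U k))
  rw [hU j k h] at h1
  exact h1.length_le

theorem stab (j : ℕ) : ∃ w : Wd, ∀ᶠ k in atTop, cut j (Z U k).toWord = w := by
  have hne : (Set.range fun k => (U j).length - (cut j (Z U (j + k)).toWord).length).Nonempty :=
    ⟨_, 0, rfl⟩
  obtain ⟨K, hK⟩ := Nat.sInf_mem hne
  have hmin : ∀ k, (U j).length - (cut j (Z U (j + K)).toWord).length ≤
      (U j).length - (cut j (Z U (j + k)).toWord).length := by
    intro k
    have h1 : (U j).length - (cut j (Z U (j + K)).toWord).length = _ := hK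
    rw [h1]
    exact Nat.sInf_le ⟨k, rfl⟩
  refine ⟨cut j (Z U (j + K)).toWord, ?_⟩
  filter_upwards [eventually_ge_atTop (j + K)] with k hk
  have h1 := chain hU (Nat.le_add_right j K) hk
  obtain ⟨m, rfl⟩ := Nat.exists_eq_add_of_le ((Nat.le_add_right j K).trans hk)
  have h2 := hmin m
  have h3 := bound hU (Nat.le_add_right j K)
  have h4 := bound hU (Nat.le_add_right j m)
  exact (h1.eq_of_length_le (by omega)).symm

theorem red_ev (j : ℕ) : ∀ᶠ k in atTop, cut j (Z U k).toWord = red (Z U) j := by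
  obtain ⟨w, hw⟩ := stab hU j
  have h : red (Z U) j = w := ev_eq hw
  rw [h]
  exact hw

end

end RED

open RED

theorem t_RED : S_RED := by
  rintro u ⟨U, hU, rfl⟩
  refine ⟨?_, ?_, red_ev hU⟩
  · intro i j hij
    obtain ⟨k, h1, h2⟩ := ((red_ev hU i).and (red_ev hU j)).exists
    rw [← h2, ← h1, cut_cut hij]
  · funext j
    obtain ⟨k, h1, h2⟩ := ((red_ev hU j).and (eventually_ge_atTop j)).exists
    show FreeGroup.mk (red (Z U) j) = Z U j
    rw [← h1, mk_cut hU h2]

theorem t_PURERED : S_RED → S_PURERED := by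
  intro hR b V hV hp j a ha
  obtain ⟨_, _, h3⟩ := hR (Z V) ⟨V, hV, rfl⟩
  obtain ⟨k, h1⟩ := (h3 j).exists
  rw [← h1] at ha
  have h4 : a ∈ (Z V k).toWord := (List.mem_filter.mp ha).1
  exact hp k a ((toWord_sub (V k)).subset h4)

end Pool.Agent.H742.GA
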